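import Pool.Agent.T2H56.PS.Exp

/-!
# Functions of regular growth: iterated differences
-/

set_option autoImplicit false

open Finset Filter

namespace Pool.Agent.T2H56.PS

/-- `F` has regular growth: `F(x) → ∞`, and for every `q ≥ 1` the quotient `x ^ q |F^(q)(x)| / F(x)` is bounded from above
and from below by positive constants for all large `x`. -/
structure RegularGrowth (F : ℝ → ℝ) : Prop where
  top : Tendsto F atTop atTop
  smooth : ∀ q : ℕ, ∀ᶠ x in atTop, DifferentiableAt ℝ (iteratedDeriv q F) x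
  bounds : ∀ q : ℕ, 1 ≤ q → ∃ a b : ℝ, 0 < a ∧ ∀ᶠ x in atTop,
    a * F x ≤ x ^ q * |iteratedDeriv q F x| ∧ x ^ q * |iteratedDeriv q F x| ≤ b * F x

lemma DD_hasDeriv (G : ℕ → ℝ → ℝ) (x₁ : ℝ) (K : ℕ)
    (hG : ∀ q < K, ∀ x, x₁ < x → HasDerivAt (G q) (G (q + 1) x) x) (ls : List ℕ) (q : ℕ) (hq : q < K) (x : ℝ)
    (hx : x₁ < x) : HasDerivAt (DD (G q) ls) (DD (G (q + 1)) ls x) x := by
  induction ls generalizing x with
  | nil => exact hG q hq x hx
  | cons l ls ih =>
    have h1 : HasDerivAt (fun y => DD (G q) ls (y + l)) (DD (G (q + 1)) ls (x + l)) x := by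
      have hl : (0 : ℝ) ≤ l := Nat.cast_nonneg l
      have := (ih (x := x + l) (by linarith))
      exact this.comp_add_const x (l : ℝ)
    exact h1.sub (ih x hx)

lemma DD_mvt (G : ℕ → ℝ → ℝ) (x₁ : ℝ) (K : ℕ)
    (hG : ∀ q < K, ∀ x, x₁ < x → HasDerivAt (G q) (G (q + 1) x) x) (ls : List ℕ) (q : ℕ) (hq : q + ls.length ≤ K)
    (x : ℝ) (hx : x₁ < x) :
    ∃ ξ, x ≤ ξ ∧ ξ ≤ x + (ls.sum : ℕ) ∧ DD (G q) ls x = (ls.prod : ℕ) * G (q + ls.length) ξ := by
  induction ls generalizing q x with
  | nil => exact ⟨x, le_rfl, by simp, by simp [DD]⟩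
  | cons l ls ih =>
    rw [List.length_cons] at hq
    have hs0 : (0 : ℝ) ≤ (ls.sum : ℕ) := Nat.cast_nonneg _
    rcases Nat.eq_zero_or_pos l with rfl | hl
    · refine ⟨x, le_rfl, ?_, by simp [DD]⟩
      rw [List.sum_cons, Nat.cast_add, Nat.cast_zero]
      linarith
    have hl' : (0 : ℝ) < l := by exact_mod_cast hl
    obtain ⟨η, hη, hη2⟩ := exists_hasDerivAt_eq_slope (DD (G q) ls) (DD (G (q + 1)) ls) (a := x) (b := x + l)
      (by linarith) (fun y hy => (DD_hasDeriv G x₁ K hG ls q (by omega) y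
        (by linarith [hy.1])).continuousAt.continuousWithinAt)
      (fun y hy => DD_hasDeriv G x₁ K hG ls q (by omega) y (by linarith [hy.1]))
    obtain ⟨ξ, h1, h2, h3⟩ := ih (q + 1) (by omega) η (by linarith [hη.1])
    refine ⟨ξ, by linarith [hη.1], ?_, ?_⟩
    · rw [List.sum_cons, Nat.cast_add]
      linarith [hη.2]
    · rw [DD_cons, List.prod_cons, List.length_cons]
      have h4 : DD (G q) ls (x + l) - DD (G q) ls x = l * DD (G (q + 1)) ls η := by
        rw [hη2, add_sub_cancel_left]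
        field_simp
      rw [h4, h3, show q + 1 + ls.length = q + (ls.length + 1) by ring]
      push_cast
      ring

/-- a differentiable function without zeros has a constant sign on a half line -/
lemma sign_const (f : ℝ → ℝ) (x₁ : ℝ) (hf : ∀ x, x₁ < x → ContinuousAt f x) (h0 : ∀ x, x₁ < x → f x ≠ 0) :
    ∃ s : ℝ, (s = 1 ∨ s = -1) ∧ ∀ x, x₁ < x → s * f x = |f x| := by
  have hx2 : x₁ < x₁ + 1 := by linarith
  have key : ∀ x, x₁ < x → ∀ y, x₁ < y → 0 < f x → 0 < f y := by
    intro x hx y hy hpos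
    by_contra hcon
    push Not at hcon
    have hneg : f y < 0 := lt_of_le_of_ne hcon (h0 y hy)
    have hsub : Set.uIcc x y ⊆ Set.Ioi x₁ := by
      intro z hz
      rw [Set.mem_uIcc] at hz
      rw [Set.mem_Ioi]
      rcases hz with hz | hz <;> linarith [hz.1, hz.2]
    have hc : ContinuousOn f (Set.uIcc x y) := fun z hz => (hf z (hsub hz)).continuousWithinAt
    have hivt := intermediate_value_uIcc hc
    have hmem : (0 : ℝ) ∈ Set.uIcc (f x) (f y) := by
      rw [Set.mem_uIcc]
      right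
      exact ⟨hneg.le, hpos.le⟩
    obtain ⟨z, hz, hz0⟩ := hivt hmem
    exact h0 z (hsub hz) hz0
  rcases lt_or_gt_of_ne (h0 _ hx2) with h | h
  · refine ⟨-1, Or.inr rfl, fun x hx => ?_⟩
    have hx0 : f x < 0 := by
      rcases lt_or_gt_of_ne (h0 x hx) with h' | h'
      · exact h'
      · exact absurd (key x hx _ hx2 h') (by linarith)
    rw [abs_of_neg hx0]
    ring
  · refine ⟨1, Or.inl rfl, fun x hx => ?_⟩
    rw [abs_of_pos (key _ hx2 x hx h), one_mul]

/-- the constants of a function of regular growth -/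
theorem RegularGrowth.first {F : ℝ → ℝ} (hF : RegularGrowth F) :
    ∃ a b x₁ : ℝ, 0 < a ∧ 1 ≤ x₁ ∧ (∀ x, x₁ < x → 0 < F x ∧ HasDerivAt F (deriv F x) x ∧
      a * F x ≤ x * deriv F x ∧ x * deriv F x ≤ b * F x) := by
  obtain ⟨a, b, ha, hab⟩ := hF.bounds 1 le_rfl
  have h1 := hF.top.eventually (eventually_gt_atTop 0)
  obtain ⟨x₁, hx₁⟩ := eventually_atTop.1 ((hab.and (hF.smooth 0)).and (h1.and ((hF.smooth 1).and (eventually_ge_atTop 1))))
  have hpos : ∀ x, max x₁ 1 < x → 0 < F x := fun x hx => (hx₁ x (le_trans (le_max_left _ _) hx.le)).2.1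
  have hne : ∀ x, max x₁ 1 < x → deriv F x ≠ 0 := by
    intro x hx h0
    have h2 := (hx₁ x (le_trans (le_max_left _ _) hx.le)).1.1.1
    rw [iteratedDeriv_one, h0] at h2
    have := mul_pos ha (hpos x hx)
    simp only [abs_zero, mul_zero] at h2
    linarith
  have hder : ∀ x, max x₁ 1 < x → HasDerivAt F (deriv F x) x := by
    intro x hx
    have h2 := (hx₁ x (le_trans (le_max_left _ _) hx.le)).1.2
    rw [iteratedDeriv_zero] at h2
    exact h2.hasDerivAt
  obtain ⟨s, hs, hs'⟩ := sign_const (deriv F) (max x₁ 1) (fun x hx => by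
    have h2 := (hx₁ x (le_trans (le_max_left _ _) hx.le)).2.2.1
    rw [iteratedDeriv_one] at h2
    exact h2.continuousAt) hne
  have hs1 : s = 1 := by
    rcases hs with h | h
    · exact h
    · exfalso
      have hneg : ∀ x, max x₁ 1 < x → deriv F x < 0 := by
        intro x hx
        have h3 := hs' x hx
        rw [h] at h3
        have h4 : 0 < |deriv F x| := abs_pos.2 (hne x hx)
        linarith
      have hanti : AntitoneOn F (Set.Ici (max x₁ 1 + 1)) := by
        apply antitoneOn_of_deriv_nonpos (convex_Ici _)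
        · intro x hx
          exact (hder x (by rw [Set.mem_Ici] at hx; linarith)).continuousAt.continuousWithinAt
        · intro x hx
          rw [interior_Ici] at hx
          exact (hder x (by rw [Set.mem_Ioi] at hx; linarith)).differentiableAt.differentiableWithinAt
        · intro x hx
          rw [interior_Ici] at hx
          exact (hneg x (by rw [Set.mem_Ioi] at hx; linarith)).le
      obtain ⟨y, hy1, hy2⟩ := ((hF.top.eventually (eventually_gt_atTop (F (max x₁ 1 + 1)))).and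
        (eventually_ge_atTop (max x₁ 1 + 1))).exists
      have := hanti (Set.mem_Ici.2 le_rfl) (Set.mem_Ici.2 hy2) hy2
      linarith
  refine ⟨a, b, max x₁ 1, ha, le_max_right _ _, fun x hx => ⟨hpos x hx, hder x hx, ?_⟩⟩
  have h2 := (hx₁ x (le_trans (le_max_left _ _) hx.le)).1.1
  rw [iteratedDeriv_one, pow_one, ← hs' x hx, hs1, one_mul] at h2
  exact h2

/-- growth of a function of regular growth -/
theorem RegularGrowth.growth {F : ℝ → ℝ} (hF : RegularGrowth F) :
    ∃ a D c C x₁ : ℝ, ∃ K : ℕ, 0 < a ∧ 0 < c ∧ 0 < C ∧ 1 ≤ D ∧ 1 ≤ x₁ ∧ (∀ x, x₁ < x → 0 < F x ∧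
      c * x ^ a ≤ F x ∧ F x ≤ C * x ^ K ∧ F (3 * x) ≤ D * F x) ∧ (∀ x y, x₁ < x → x ≤ y → F x ≤ F y) := by
  obtain ⟨a, b, x₁, ha, hx1, h⟩ := hF.first
  have hb : 0 < b := by
    have h2 := h (x₁ + 1) (by linarith)
    by_contra hcon
    push Not at hcon
    have h3 := mul_pos ha h2.1
    have h4 : b * F (x₁ + 1) ≤ 0 := mul_nonpos_of_nonpos_of_nonneg hcon h2.1.le
    linarith [h2.2.2.1, h2.2.2.2]
  set x₂ := x₁ + 1 with hx₂
  -- log F
  have hL : ∀ x, x₁ < x → HasDerivAt (fun y => Real.log (F y)) (deriv F x / F x) x :=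
    fun x hx => (h x hx).2.1.log (h x hx).1.ne'
  have hlog : ∀ x : ℝ, x₁ < x → HasDerivAt Real.log x⁻¹ x := fun x hx => Real.hasDerivAt_log (by linarith)
  have m1 : MonotoneOn (fun y => Real.log (F y) - a * Real.log y) (Set.Ioi x₁) := by
    have hd : ∀ x, x₁ < x → HasDerivAt (fun y => Real.log (F y) - a * Real.log y) (deriv F x / F x - a * x⁻¹) x :=
      fun x hx => (hL x hx).sub ((hlog x hx).const_mul a)
    apply monotoneOn_of_deriv_nonneg (convex_Ioi _)
    · intro x hx
      exact (hd x hx).continuousAt.continuousWithinAt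
    · intro x hx
      rw [interior_Ioi] at hx
      exact (hd x hx).differentiableAt.differentiableWithinAt
    · intro x hx
      rw [interior_Ioi] at hx
      rw [(hd x hx).deriv]
      have h2 := h x hx
      have hx0 : 0 < x := by
        have : x₁ < x := hx
        linarith
      have h3 : a * x⁻¹ ≤ deriv F x / F x := by
        rw [le_div_iff₀ h2.1, ← div_eq_mul_inv, div_mul_eq_mul_div, div_le_iff₀ hx0]
        linarith [h2.2.2.1]
      linarith
  have m2 : MonotoneOn (fun y => b * Real.log y - Real.log (F y)) (Set.Ioi x₁) := by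
    have hd : ∀ x, x₁ < x → HasDerivAt (fun y => b * Real.log y - Real.log (F y)) (b * x⁻¹ - deriv F x / F x) x :=
      fun x hx => ((hlog x hx).const_mul b).sub (hL x hx)
    apply monotoneOn_of_deriv_nonneg (convex_Ioi _)
    · intro x hx
      exact (hd x hx).continuousAt.continuousWithinAt
    · intro x hx
      rw [interior_Ioi] at hx
      exact (hd x hx).differentiableAt.differentiableWithinAt
    · intro x hx
      rw [interior_Ioi] at hx
      rw [(hd x hx).deriv]
      have h2 := h x hx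
      have hx0 : 0 < x := by
        have : x₁ < x := hx
        linarith
      have h3 : deriv F x / F x ≤ b * x⁻¹ := by
        rw [div_le_iff₀ h2.1, ← div_eq_mul_inv, div_mul_eq_mul_div, le_div_iff₀ hx0]
        linarith [h2.2.2.2]
      linarith
  refine ⟨a, Real.exp (b * Real.log 3), Real.exp (Real.log (F x₂) - a * Real.log x₂),
    Real.exp (Real.log (F x₂) - b * Real.log x₂), x₂, ⌈b⌉₊, ha, Real.exp_pos _, Real.exp_pos _, ?_, by linarith, ?_, ?_⟩
  · have hl3 : 0 < Real.log 3 := Real.log_pos (by norm_num)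
    have := Real.add_one_le_exp (b * Real.log 3)
    have h4 : 0 < b * Real.log 3 := by positivity
    linarith
  · intro x hx
    have hx₁' : x₁ < x := by linarith
    have hx0 : 0 < x := by linarith
    have hx1' : 1 ≤ x := by linarith
    have hFx := (h x hx₁').1
    have hx3 : x₁ < 3 * x := by linarith
    have e1 := m1 (by rw [Set.mem_Ioi]; linarith : x₂ ∈ Set.Ioi x₁) (Set.mem_Ioi.2 hx₁') hx.le
    have e2 := m2 (by rw [Set.mem_Ioi]; linarith : x₂ ∈ Set.Ioi x₁) (Set.mem_Ioi.2 hx₁') hx.le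
    have e3 := m2 (Set.mem_Ioi.2 hx₁') (Set.mem_Ioi.2 hx3) (by linarith : x ≤ 3 * x)
    simp only at e1 e2 e3
    refine ⟨hFx, ?_, ?_, ?_⟩
    · rw [Real.rpow_def_of_pos hx0, ← Real.exp_add, ← Real.le_log_iff_exp_le hFx]
      linarith
    · calc F x = Real.exp (Real.log (F x)) := (Real.exp_log hFx).symm
        _ ≤ Real.exp (Real.log (F x₂) - b * Real.log x₂ + b * Real.log x) := Real.exp_le_exp.2 (by linarith)
        _ = Real.exp (Real.log (F x₂) - b * Real.log x₂) * x ^ b := by
            rw [Real.exp_add, Real.rpow_def_of_pos hx0, mul_comm (Real.log x) b]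
        _ ≤ _ := by
            apply mul_le_mul_of_nonneg_left _ (Real.exp_pos _).le
            rw [← Real.rpow_natCast]
            exact Real.rpow_le_rpow_of_exponent_le hx1' (Nat.le_ceil b)
    · have hF3 := (h (3 * x) hx3).1
      have hl3 : Real.log (3 * x) = Real.log 3 + Real.log x := Real.log_mul (by norm_num) hx0.ne'
      rw [hl3] at e3
      calc F (3 * x) = Real.exp (Real.log (F (3 * x))) := (Real.exp_log hF3).symm
        _ ≤ Real.exp (b * Real.log 3 + Real.log (F x)) := Real.exp_le_exp.2 (by linarith)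
        _ = _ := by rw [Real.exp_add, Real.exp_log hFx]
  · intro x y hx hxy
    have hmono : MonotoneOn F (Set.Ioi x₁) := by
      apply monotoneOn_of_deriv_nonneg (convex_Ioi _)
      · intro x hx
        exact (h x hx).2.1.continuousAt.continuousWithinAt
      · intro x hx
        rw [interior_Ioi] at hx
        exact (h x hx).2.1.differentiableAt.differentiableWithinAt
      · intro x hx
        rw [interior_Ioi] at hx
        have h2 := h x hx
        have hx0 : 0 < x := by
          have : x₁ < x := hx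
          linarith
        by_contra hcon
        push Not at hcon
        have h3 := mul_pos ha h2.1
        have h4 := mul_neg_of_pos_of_neg hx0 hcon
        linarith [h2.2.2.1]
    exact hmono (Set.mem_Ioi.2 (by linarith)) (Set.mem_Ioi.2 (by linarith)) hxy

/-- the bounds `Bd` for a function of regular growth -/
theorem RegularGrowth.bd {F : ℝ → ℝ} (hF : RegularGrowth F) (Q : ℕ) :
    ∃ A B s : ℕ → ℝ, (∀ q, 0 < A q) ∧ (∀ q, 1 ≤ B q) ∧ (∀ q, s q = 1 ∨ s q = -1) ∧
      ∃ N₀ : ℕ, ∀ N : ℕ, N₀ ≤ N → Bd Q A B s F (F N) N := by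
  obtain ⟨a₀, D, c₀, C₀, x₀, K₀, ha₀, hc₀, hC₀, hD, hx₀, hgr, hmono⟩ := hF.growth
  choose a b ha hab using hF.bounds
  -- all the eventual bounds up to order `Q + 3`
  have hall : ∀ K : ℕ, ∃ x₁ : ℝ, ∀ x, x₁ < x → ∀ q ≤ K, DifferentiableAt ℝ (iteratedDeriv q F) x ∧
      ∀ h1 : 1 ≤ q, a q h1 * F x ≤ x ^ q * |iteratedDeriv q F x| ∧
        x ^ q * |iteratedDeriv q F x| ≤ b q h1 * F x := by
    intro K
    induction K with
    | zero =>
      obtain ⟨x₁, h1⟩ := eventually_atTop.1 (hF.smooth 0)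
      refine ⟨x₁, fun x hx q hq => ?_⟩
      obtain rfl : q = 0 := by omega
      exact ⟨h1 x hx.le, fun h => absurd h (by omega)⟩
    | succ K ih =>
      obtain ⟨x₁, h1⟩ := ih
      obtain ⟨x₂, h2⟩ := eventually_atTop.1 ((hF.smooth (K + 1)).and (hab (K + 1) (by omega)))
      refine ⟨max x₁ x₂, fun x hx q hq => ?_⟩
      rcases Nat.lt_or_ge q (K + 1) with h | h
      · exact h1 x (lt_of_le_of_lt (le_max_left _ _) hx) q (by omega)
      · obtain rfl : q = K + 1 := by omega
        have h3 := h2 x (le_trans (le_max_right _ _) hx.le)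
        exact ⟨h3.1, fun _ => h3.2⟩
  obtain ⟨x₁, hx₁⟩ := hall (Q + 3)
  set y₁ := max x₁ x₀ with hy₁
  have hy0 : x₀ ≤ y₁ := le_max_right _ _
  have hsg : ∀ q : ℕ, ∃ s : ℝ, (s = 1 ∨ s = -1) ∧ (1 ≤ q → q ≤ Q + 3 → ∀ x, y₁ < x →
      s * iteratedDeriv q F x = |iteratedDeriv q F x|) := by
    intro q
    by_cases hq : 1 ≤ q ∧ q ≤ Q + 3
    · obtain ⟨s, hs, hs'⟩ := sign_const (iteratedDeriv q F) y₁
        (fun x hx => ((hx₁ x (lt_of_le_of_lt (le_max_left _ _) hx)) q hq.2).1.continuousAt)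
        (fun x hx h0 => by
          have h2 := (((hx₁ x (lt_of_le_of_lt (le_max_left _ _) hx)) q hq.2).2 hq.1).1
          rw [h0, abs_zero, mul_zero] at h2
          have h3 := (hgr x (lt_of_le_of_lt hy0 hx)).1
          have := mul_pos (ha q hq.1) h3
          linarith)
      exact ⟨s, hs, fun _ _ => hs'⟩
    · exact ⟨1, Or.inl rfl, fun h1 h2 => absurd ⟨h1, h2⟩ hq⟩
  choose s hs hs' using hsg
  refine ⟨fun q => a (q + 1) (by omega) / 3 ^ (q + 1), fun q => max 1 (b (q + 1) (by omega) * D), fun q => s (q + 1),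
    fun q => div_pos (ha _ _) (by positivity), fun q => le_max_left _ _, fun q => hs _, ⌈y₁⌉₊ + 1, fun N hN => ?_⟩
  have hNy : y₁ < N := by
    have h1 : y₁ ≤ ⌈y₁⌉₊ := Nat.le_ceil _
    have h2 : ((⌈y₁⌉₊ + 1 : ℕ) : ℝ) ≤ N := by exact_mod_cast hN
    push_cast at h2
    linarith
  have hN1 : (1 : ℝ) ≤ N := by linarith
  have hFN := (hgr N (lt_of_le_of_lt hy0 hNy)).1
  refine ⟨hFN, fun l ls x hlen hx hx3 => ?_⟩
  set k := ls.length with hk
  obtain ⟨ξ, h1, h2, h3⟩ := DD_mvt (fun q => iteratedDeriv q F) y₁ (Q + 3) (by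
    intro q hq x hx
    have h4 := ((hx₁ x (lt_of_le_of_lt (le_max_left _ _) hx)) q (by omega)).1.hasDerivAt
    rw [iteratedDeriv_succ]
    exact h4) (l :: ls) 0 (by rw [List.length_cons]; omega) x (by linarith)
  rw [List.length_cons, List.sum_cons, List.prod_cons, zero_add, ← hk] at *
  simp only [iteratedDeriv_zero] at h3
  have hξ1 : (N : ℝ) ≤ ξ := by linarith
  have hξ2 : ξ ≤ 3 * N := by
    rw [Nat.cast_add] at h2
    linarith
  have hξy : y₁ < ξ := by linarith
  have hξ0 : 0 < ξ := by linarith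
  have hb := ((hx₁ ξ (lt_of_le_of_lt (le_max_left _ _) hξy)) (k + 1) (by omega)).2 (by omega)
  rw [← hs' (k + 1) (by omega) (by omega) ξ hξy] at hb
  have hFξ := hgr ξ (lt_of_le_of_lt hy0 hξy)
  have hFm : F N ≤ F ξ := hmono _ _ (lt_of_le_of_lt hy0 hNy) hξ1
  have hFM : F ξ ≤ D * F N := (hmono _ _ (lt_of_le_of_lt hy0 hξy) hξ2).trans (hgr N (lt_of_le_of_lt hy0 hNy)).2.2.2
  set g := s (k + 1) * iteratedDeriv (k + 1) F ξ with hg
  have hak := ha (k + 1) (by omega)
  have hbk : 0 < b (k + 1) (by omega) := by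
    by_contra hcon
    push Not at hcon
    have e1 := mul_pos hak hFξ.1
    have e2 : b (k + 1) (by omega) * F ξ ≤ 0 := mul_nonpos_of_nonpos_of_nonneg hcon hFξ.1.le
    linarith [hb.1, hb.2]
  have hlo : a (k + 1) (by omega) / 3 ^ (k + 1) * F N / (N : ℝ) ^ (k + 1) ≤ g := by
    rw [div_le_iff₀ (by positivity), div_mul_eq_mul_div, div_le_iff₀ (by positivity)]
    calc a (k + 1) (by omega) * F N ≤ a (k + 1) (by omega) * F ξ := by gcongr
      _ ≤ ξ ^ (k + 1) * g := by
        have := hb.1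
        rw [show ξ ^ (k + 1) * (s (k + 1) * iteratedDeriv (k + 1) F ξ) = ξ ^ (k + 1) * g by rw [hg]] at this
        exact this
      _ ≤ (3 * N) ^ (k + 1) * g := by
        have hg0 : 0 ≤ g := by
          have e1 := mul_pos hak hFξ.1
          by_contra hcon
          push Not at hcon
          have e2 := mul_neg_of_pos_of_neg (pow_pos hξ0 (k + 1)) hcon
          linarith [hb.1]
        gcongr
      _ = g * N ^ (k + 1) * 3 ^ (k + 1) := by rw [mul_pow]; ring
  have hup : g ≤ max 1 (b (k + 1) (by omega) * D) * F N / (N : ℝ) ^ (k + 1) := by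
    rw [le_div_iff₀ (by positivity)]
    have hg0 : 0 ≤ g := le_trans (by positivity) hlo
    calc g * (N : ℝ) ^ (k + 1) ≤ g * ξ ^ (k + 1) := by gcongr
      _ = ξ ^ (k + 1) * g := by ring
      _ ≤ b (k + 1) (by omega) * F ξ := hb.2
      _ ≤ b (k + 1) (by omega) * (D * F N) := by gcongr
      _ = (b (k + 1) (by omega) * D) * F N := by ring
      _ ≤ _ := by
        have := le_max_right 1 (b (k + 1) (by omega) * D)
        gcongr
  have hlp : (0 : ℝ) ≤ ((l * ls.prod : ℕ) : ℝ) := Nat.cast_nonneg _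
  have h5 : s (k + 1) * DD F (l :: ls) x = g * ((l * ls.prod : ℕ) : ℝ) := by
    rw [h3, hg]
    ring
  rw [h5]
  exact ⟨mul_le_mul_of_nonneg_right hlo hlp, mul_le_mul_of_nonneg_right hup hlp⟩

end Pool.Agent.T2H56.PS
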