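import Pool.Agent.T2H56.PS.Diff

/-!
# The additive energy of the integers near the values of a function of regular growth
-/

set_option autoImplicit false

open Finset

namespace Pool.Agent.T2H56.PS

open Pool.Agent.H469R2.NK

/-- `S(θ) = ∑ e(θ y i)` -/
noncomputable def SS {ι : Type} [Fintype ι] (y : ι → ℝ) (θ : ℝ) : ℂ := ∑ i, e (θ * y i)

lemma SS_neg {ι : Type} [Fintype ι] (y : ι → ℝ) (θ : ℝ) : ‖SS y (-θ)‖ = ‖SS y θ‖ := by
  have : SS y (-θ) = (starRingEnd ℂ) (SS y θ) := by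
    unfold SS
    rw [map_sum]
    refine sum_congr rfl fun i _ => ?_
    rw [conj_e]
    congr 1
    ring
  rw [this, Complex.norm_conj]

lemma re_e (x : ℝ) : (e x).re = Real.cos (2 * Real.pi * x) := by
  unfold e
  rw [Complex.exp_ofReal_mul_I_re]

lemma re_e_ge {x : ℝ} (hx : 8 * |x| ≤ 1) : √2 / 2 ≤ (e x).re := by
  rw [re_e, ← Real.cos_pi_div_four, ← Real.cos_abs (2 * Real.pi * x)]
  have hpi := Real.pi_pos
  apply Real.cos_le_cos_of_nonneg_of_le_pi (abs_nonneg _) (by linarith)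
  rw [abs_mul, abs_of_pos (by positivity : (0 : ℝ) < 2 * Real.pi)]
  nlinarith

lemma peak (δ u : ℝ) (hδ : 0 ≤ δ) (R : ℕ) (h : 8 * (δ * |u| * R) ≤ 1) :
    (R : ℝ) ^ 2 / 2 ≤ ‖∑ r ∈ range R, e (((r : ℝ) * δ) * u)‖ ^ 2 := by
  have h1 : (R : ℝ) * (√2 / 2) ≤ (∑ r ∈ range R, e (((r : ℝ) * δ) * u)).re := by
    rw [Complex.re_sum]
    calc (R : ℝ) * (√2 / 2) = ∑ _r ∈ range R, (√2 / 2 : ℝ) := by rw [sum_const, card_range, nsmul_eq_mul]
      _ ≤ _ := by
        refine sum_le_sum fun r hr => re_e_ge ?_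
        rw [abs_mul, abs_mul, abs_of_nonneg hδ, abs_of_nonneg (Nat.cast_nonneg r)]
        have hrR : (r : ℝ) ≤ R := by exact_mod_cast (mem_range.1 hr).le
        have h0 : 0 ≤ δ * |u| := mul_nonneg hδ (abs_nonneg _)
        calc 8 * ((r : ℝ) * δ * |u|) = 8 * (δ * |u| * r) := by ring
          _ ≤ 8 * (δ * |u| * R) := by gcongr
          _ ≤ 1 := h
  have h2 : 0 ≤ (R : ℝ) * (√2 / 2) := by positivity
  have h3 := Complex.re_le_norm (∑ r ∈ range R, e (((r : ℝ) * δ) * u))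
  have h4 : (R : ℝ) * (√2 / 2) ≤ ‖∑ r ∈ range R, e (((r : ℝ) * δ) * u)‖ := h1.trans h3
  have h5 := pow_le_pow_left₀ h2 h4 2
  have h6 : ((R : ℝ) * (√2 / 2)) ^ 2 = (R : ℝ) ^ 2 / 2 := by
    rw [mul_pow, div_pow, Real.sq_sqrt (by norm_num)]
    ring
  rw [h6] at h5
  exact h5

lemma e_sum {α : Type*} (s : Finset α) (f : α → ℝ) : e (∑ i ∈ s, f i) = ∏ i ∈ s, e (f i) := by
  classical
  induction s using Finset.induction_on with
  | empty => simp [e_zero]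
  | insert a s ha ih => rw [sum_insert ha, prod_insert ha, e_add, ih]

lemma moment {ι : Type} [Fintype ι] (y : ι → ℝ) (h : ℕ) (θ : ℝ) :
    ∑ q : (Fin h → ι) × (Fin h → ι), e (θ * (∑ j, y (q.1 j) - ∑ j, y (q.2 j))) = ((‖SS y θ‖ ^ (2 * h) : ℝ) : ℂ) := by
  classical
  have h1 : ∀ p : Fin h → ι, e (θ * ∑ j, y (p j)) = ∏ j, e (θ * y (p j)) := by
    intro p
    rw [mul_sum, e_sum]
  have h2 : ∑ p : Fin h → ι, e (θ * ∑ j, y (p j)) = SS y θ ^ h := by
    unfold SS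
    rw [Fintype.sum_pow]
    exact sum_congr rfl fun p _ => h1 p
  rw [Fintype.sum_prod_type]
  have h3 : ∀ p p' : Fin h → ι, e (θ * (∑ j, y (p j) - ∑ j, y (p' j))) =
      e (θ * ∑ j, y (p j)) * (starRingEnd ℂ) (e (θ * ∑ j, y (p' j))) := by
    intro p p'
    rw [conj_e, ← e_add]
    congr 1
    ring
  simp only [h3]
  rw [← sum_mul_sum, ← map_sum, h2, Complex.mul_conj, Complex.normSq_eq_norm_sq, norm_pow, ← pow_mul, mul_comm h 2]

lemma norm_sq_sum {α : Type*} (s : Finset α) (f : α → ℂ) :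
    ((‖∑ r ∈ s, f r‖ ^ 2 : ℝ) : ℂ) = ∑ r ∈ s, ∑ r' ∈ s, f r * (starRingEnd ℂ) (f r') := by
  rw [← sum_mul_sum, ← map_sum, Complex.mul_conj, Complex.normSq_eq_norm_sq]

/-- counting by exponential sums -/
lemma count_le {ι : Type} [Fintype ι] (y : ι → ℝ) (h R : ℕ) (δ H : ℝ) (hδ : 0 ≤ δ) (hR : 8 * (δ * H * R) ≤ 1)
    (hR1 : 1 ≤ R) :
    (Nat.card {q : (Fin h → ι) × (Fin h → ι) // |∑ j, y (q.1 j) - ∑ j, y (q.2 j)| ≤ H} : ℝ) * R ≤
      2 * (‖SS y 0‖ ^ (2 * h) + 2 * ∑ t ∈ Ico 1 R, ‖SS y ((t : ℝ) * δ)‖ ^ (2 * h)) := by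
  classical
  set u : (Fin h → ι) × (Fin h → ι) → ℝ := fun q => ∑ j, y (q.1 j) - ∑ j, y (q.2 j) with hu
  have hcard : Nat.card {q : (Fin h → ι) × (Fin h → ι) // |∑ j, y (q.1 j) - ∑ j, y (q.2 j)| ≤ H} =
      (univ.filter (fun q => |u q| ≤ H)).card := by
    rw [Nat.card_eq_fintype_card, Fintype.card_subtype]
  have h1 : ((univ.filter (fun q => |u q| ≤ H)).card : ℝ) * ((R : ℝ) ^ 2 / 2) ≤
      ∑ q, ‖∑ r ∈ range R, e (((r : ℝ) * δ) * u q)‖ ^ 2 := by
    calc ((univ.filter (fun q => |u q| ≤ H)).card : ℝ) * ((R : ℝ) ^ 2 / 2) =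
          ∑ q ∈ univ.filter (fun q => |u q| ≤ H), ((R : ℝ) ^ 2 / 2) := by rw [sum_const, nsmul_eq_mul]
      _ ≤ ∑ q ∈ univ.filter (fun q => |u q| ≤ H), ‖∑ r ∈ range R, e (((r : ℝ) * δ) * u q)‖ ^ 2 := by
          refine sum_le_sum fun q hq => peak δ (u q) hδ R ?_
          have hq' := (mem_filter.1 hq).2
          calc 8 * (δ * |u q| * R) ≤ 8 * (δ * H * R) := by gcongr
            _ ≤ 1 := hR
      _ ≤ _ := sum_le_sum_of_subset_of_nonneg (filter_subset _ _) (fun _ _ _ => by positivity)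
  have h2 : ∑ q, ‖∑ r ∈ range R, e (((r : ℝ) * δ) * u q)‖ ^ 2 =
      ∑ r ∈ range R, ∑ r' ∈ range R, ‖SS y (((r : ℝ) - r') * δ)‖ ^ (2 * h) := by
    have h3 : ((∑ q, ‖∑ r ∈ range R, e (((r : ℝ) * δ) * u q)‖ ^ 2 : ℝ) : ℂ) =
        ((∑ r ∈ range R, ∑ r' ∈ range R, ‖SS y (((r : ℝ) - r') * δ)‖ ^ (2 * h) : ℝ) : ℂ) := by
      push_cast
      have h4 : ∀ q, ((‖∑ r ∈ range R, e (((r : ℝ) * δ) * u q)‖ : ℝ) : ℂ) ^ 2 =
          ∑ r ∈ range R, ∑ r' ∈ range R, e ((((r : ℝ) - r') * δ) * u q) := by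
        intro q
        have := norm_sq_sum (range R) (fun r => e (((r : ℝ) * δ) * u q))
        push_cast at this
        rw [this]
        refine sum_congr rfl fun r _ => sum_congr rfl fun r' _ => ?_
        rw [conj_e, ← e_add]
        congr 1
        ring
      simp only [h4]
      rw [sum_comm]
      refine sum_congr rfl fun r _ => ?_
      rw [sum_comm]
      refine sum_congr rfl fun r' _ => ?_
      have := moment y h (((r : ℝ) - r') * δ)
      push_cast at this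
      exact this
    exact_mod_cast h3
  set G : ℕ → ℝ := fun t => ‖SS y ((t : ℝ) * δ)‖ ^ (2 * h) with hG
  have hG0 : ∀ t, 0 ≤ G t := fun t => by positivity
  have h5 : ∀ r ∈ range R, ∑ r' ∈ range R, ‖SS y (((r : ℝ) - r') * δ)‖ ^ (2 * h) ≤ G 0 + 2 * ∑ t ∈ Ico 1 R, G t := by
    intro r hr
    have hr' := mem_range.1 hr
    rw [← sum_filter_add_sum_filter_not (range R) (fun r' => r' ≤ r)]
    have e1 : ∑ r' ∈ (range R).filter (fun r' => r' ≤ r), ‖SS y (((r : ℝ) - r') * δ)‖ ^ (2 * h) ≤ ∑ t ∈ range R, G t := by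
      have e2 : ∑ r' ∈ (range R).filter (fun r' => r' ≤ r), ‖SS y (((r : ℝ) - r') * δ)‖ ^ (2 * h) =
          ∑ t ∈ ((range R).filter (fun r' => r' ≤ r)).image (fun r' => r - r'), G t := by
        rw [sum_image]
        · refine sum_congr rfl fun r' h' => ?_
          have := (mem_filter.1 h').2
          simp only [hG]
          rw [Nat.cast_sub this]
        · intro x hx z hz hxz
          have h1 := (mem_filter.1 hx).2
          have h2 := (mem_filter.1 hz).2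
          simp only at hxz
          omega
      rw [e2]
      refine sum_le_sum_of_subset_of_nonneg ?_ (fun _ _ _ => hG0 _)
      intro t ht
      obtain ⟨r', _, rfl⟩ := mem_image.1 ht
      rw [mem_range]
      omega
    have e3 : ∑ r' ∈ (range R).filter (fun r' => ¬ r' ≤ r), ‖SS y (((r : ℝ) - r') * δ)‖ ^ (2 * h) ≤ ∑ t ∈ Ico 1 R, G t := by
      have e2 : ∑ r' ∈ (range R).filter (fun r' => ¬ r' ≤ r), ‖SS y (((r : ℝ) - r') * δ)‖ ^ (2 * h) =
          ∑ t ∈ ((range R).filter (fun r' => ¬ r' ≤ r)).image (fun r' => r' - r), G t := by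
        rw [sum_image]
        · refine sum_congr rfl fun r' h' => ?_
          have := (mem_filter.1 h').2
          simp only [hG]
          rw [Nat.cast_sub (by omega : r ≤ r'), ← SS_neg]
          congr 3
          ring
        · intro x hx z hz hxz
          have h1 := (mem_filter.1 hx).2
          have h2 := (mem_filter.1 hz).2
          simp only at hxz
          omega
      rw [e2]
      refine sum_le_sum_of_subset_of_nonneg ?_ (fun _ _ _ => hG0 _)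
      intro t ht
      obtain ⟨r', h', rfl⟩ := mem_image.1 ht
      have h1 := mem_filter.1 h'
      have h2 := mem_range.1 h1.1
      rw [mem_Ico]
      omega
    have e4 : ∑ t ∈ range R, G t = G 0 + ∑ t ∈ Ico 1 R, G t := by
      rw [range_eq_Ico, sum_eq_sum_Ico_succ_bot (by omega : 0 < R)]
    linarith
  have h6 := h1.trans (h2.le.trans (sum_le_sum h5))
  rw [sum_const, card_range, nsmul_eq_mul] at h6
  rw [hcard]
  have hRpos : (0 : ℝ) < R := by exact_mod_cast hR1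
  have h7 : ((univ.filter (fun q => |u q| ≤ H)).card : ℝ) * R * (R / 2) ≤ (G 0 + 2 * ∑ t ∈ Ico 1 R, G t) * 2 * (R / 2) := by
    calc _ = ((univ.filter (fun q => |u q| ≤ H)).card : ℝ) * ((R : ℝ) ^ 2 / 2) := by ring
      _ ≤ _ := h6
      _ = _ := by ring
  have h8 := le_of_mul_le_mul_right h7 (by positivity)
  have h9 : G 0 = ‖SS y 0‖ ^ (2 * h) := by
    simp only [hG, Nat.cast_zero, zero_mul]
  rw [h9] at h8
  linarith

lemma sum_inv_sq (R : ℕ) : ∑ t ∈ Ico 1 R, 1 / (t : ℝ) ^ 2 ≤ 2 := by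
  have h : ∀ R : ℕ, 1 ≤ R → ∑ t ∈ Ico 1 (R + 1), 1 / (t : ℝ) ^ 2 ≤ 2 - 1 / (R : ℝ) := by
    intro R hR
    induction R, hR using Nat.le_induction with
    | base => norm_num
    | succ n hn ih =>
      rw [sum_Ico_succ_top (by omega)]
      have hn' : (1 : ℝ) ≤ n := by exact_mod_cast hn
      have h1 : 1 / (((n + 1 : ℕ) : ℝ)) ^ 2 ≤ 1 / n - 1 / ((n + 1 : ℕ) : ℝ) := by
        push_cast
        rw [div_sub_div _ _ (by positivity) (by positivity), div_le_div_iff₀ (by positivity) (by positivity)]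
        nlinarith
      linarith
  rcases Nat.lt_or_ge R 2 with hR | hR
  · rw [Ico_eq_empty_of_le (by omega)]
    simp
  · have := h (R - 1) (by omega)
    rw [show R - 1 + 1 = R by omega] at this
    have h2 : (0 : ℝ) ≤ 1 / ((R - 1 : ℕ) : ℝ) := div_nonneg zero_le_one (Nat.cast_nonneg _)
    linarith

lemma add_pow_le' {x y : ℝ} (hx : 0 ≤ x) (hy : 0 ≤ y) (n : ℕ) : (x + y) ^ n ≤ 2 ^ n * (x ^ n + y ^ n) := by
  have h1 : x + y ≤ 2 * max x y := by
    have := le_max_left x y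
    have := le_max_right x y
    linarith
  have hm : 0 ≤ max x y := le_trans hx (le_max_left _ _)
  calc (x + y) ^ n ≤ (2 * max x y) ^ n := by gcongr
    _ = 2 ^ n * max x y ^ n := mul_pow _ _ _
    _ ≤ 2 ^ n * (x ^ n + y ^ n) := by
      gcongr
      rcases max_cases x y with ⟨h, _⟩ | ⟨h, _⟩
      · rw [h]
        have : 0 ≤ y ^ n := by positivity
        linarith
      · rw [h]
        have : 0 ≤ x ^ n := by positivity
        linarith

/-- **The number of near coincidences of sums of `h` values.** -/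
theorem RegularGrowth.count {F : ℝ → ℝ} (hF : RegularGrowth F) :
    ∃ h : ℕ, 1 ≤ h ∧ ∃ C : ℝ, 0 < C ∧ ∃ M₀ : ℕ, ∀ M : ℕ, M₀ ≤ M → ∀ H : ℝ, 1 ≤ H → 8 * H ≤ F M →
      (Nat.card {q : (Fin h → Fin M) × (Fin h → Fin M) //
        |∑ j, F ((M + (q.1 j : ℕ) : ℕ) : ℝ) - ∑ j, F ((M + (q.2 j : ℕ) : ℕ) : ℝ)| ≤ H} : ℝ) * F M ≤
        C * H * (M : ℝ) ^ (2 * h) := by
  obtain ⟨a, D, c₀, C₀, x₀, K, ha, hc₀, hC₀, hD, hx₀, hgr, hmono⟩ := hF.growth
  set Q := K + 1 with hQ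
  have hQ1 : 1 ≤ Q := by omega
  obtain ⟨A, B, s, hA, hB, hs, N₀, hbd⟩ := hF.bd Q
  obtain ⟨C₁, hC₁, hexp⟩ := expBound Q hQ1 A B s hA hB hs
  set h : ℕ := 4 * Q * Q * 2 ^ Q with hh
  have hQr : (1 : ℝ) ≤ Q := by exact_mod_cast hQ1
  have hh1 : 1 ≤ h := by
    rw [hh]
    have : 0 < 4 * Q * Q * 2 ^ Q := by positivity
    omega
  set C₂ : ℝ := (2 * C₁) ^ (2 * h) with hC₂
  have hC₂0 : 0 < C₂ := by positivity
  refine ⟨h, hh1, 32 * (1 + 6 * C₂), by positivity, N₀ + 3 + ⌈C₀⌉₊ + ⌈x₀⌉₊ + 1, fun M hM H hH hHF => ?_⟩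
  have hMx : x₀ < M := by
    have h1 : x₀ ≤ ⌈x₀⌉₊ := Nat.le_ceil _
    have h2 : ((⌈x₀⌉₊ + 1 : ℕ) : ℝ) ≤ M := by exact_mod_cast (by omega : ⌈x₀⌉₊ + 1 ≤ M)
    push_cast at h2
    linarith
  have hMC : C₀ ≤ M := by
    have h1 : C₀ ≤ ⌈C₀⌉₊ := Nat.le_ceil _
    have h2 : ((⌈C₀⌉₊ : ℕ) : ℝ) ≤ M := by exact_mod_cast (by omega : ⌈C₀⌉₊ ≤ M)
    linarith
  have hM1 : (1 : ℝ) ≤ M := by linarith
  have hMpos : (0 : ℝ) < M := by linarith
  have hg := hgr M hMx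
  set P := F M with hP
  have hP0 : 0 < P := hg.1
  have hPQ : P ≤ (M : ℝ) ^ Q := by
    calc P ≤ C₀ * (M : ℝ) ^ K := hg.2.2.1
      _ ≤ M * (M : ℝ) ^ K := by gcongr
      _ = (M : ℝ) ^ Q := by rw [hQ, pow_succ]; ring
  set R : ℕ := ⌊P / (8 * H)⌋₊ with hR
  have hPH : 1 ≤ P / (8 * H) := by
    rw [le_div_iff₀ (by linarith)]
    linarith
  have hR1 : 1 ≤ R := (Nat.one_le_floor_iff _).2 hPH
  have hRle : (R : ℝ) ≤ P / (8 * H) := Nat.floor_le (by linarith)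
  have hRge : P / (16 * H) ≤ R := by
    have h1 : P / (8 * H) < R + 1 := Nat.lt_floor_add_one _
    have h2 : (1 : ℝ) ≤ R := by exact_mod_cast hR1
    have h3 : P / (16 * H) = P / (8 * H) / 2 := by
      rw [div_div]
      congr 1
      ring
    rw [h3]
    linarith
  have hR1' : (1 : ℝ) ≤ R := by exact_mod_cast hR1
  have hRP : (R : ℝ) ≤ P := by
    refine hRle.trans ?_
    rw [div_le_iff₀ (by linarith)]
    nlinarith
  set y : Fin M → ℝ := fun i => F ((M + (i : ℕ) : ℕ) : ℝ) with hy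
  have hc := count_le y h R (1 / P) H (by positivity) (by
    have h1 : (R : ℝ) * (8 * H) ≤ P := by
      rw [← le_div_iff₀ (by linarith)]
      exact hRle
    have e1 : 8 * (1 / P * H * R) = (R * (8 * H)) / P := by ring
    rw [e1, div_le_one hP0]
    exact h1) hR1
  -- the trivial bound
  have hS0 : ‖SS y 0‖ ≤ M := by
    unfold SS
    refine (norm_sum_le _ _).trans ?_
    simp only [norm_e, sum_const, card_univ, Fintype.card_fin, nsmul_eq_mul, mul_one, le_refl]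
  have hSt : ∀ t ∈ Ico 1 R, ‖SS y ((t : ℝ) * (1 / P))‖ ^ (2 * h) ≤
      C₂ * (M : ℝ) ^ (2 * h) * (1 / (t : ℝ) ^ 2 + 1 / (M : ℝ) ^ Q) := by
    intro t ht
    rw [mem_Ico] at ht
    have ht1 : (1 : ℝ) ≤ t := by exact_mod_cast ht.1
    have htR : (t : ℝ) ≤ R := by exact_mod_cast ht.2.le
    have hZP : (t : ℝ) * (1 / P) * P = t := by field_simp
    have h1 := hexp F P M (by omega) (hbd M (by omega)) M M ((t : ℝ) * (1 / P)) le_rfl le_rfl (by omega)
      (by rw [hZP]; exact ht1) (by rw [hZP]; linarith)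
    rw [hZP] at h1
    have h2 : SS y ((t : ℝ) * (1 / P)) = ∑ n ∈ range M, e ((t : ℝ) * (1 / P) * F ((M + n : ℕ) : ℝ)) := by
      unfold SS
      rw [sum_range]
    rw [h2]
    refine (pow_le_pow_left₀ (norm_nonneg _) h1 _).trans ?_
    rw [mul_pow]
    refine (mul_le_mul_of_nonneg_left (add_pow_le' (by positivity) (by positivity) _) (by positivity)).trans ?_
    have e1 : ((M : ℝ) / t) ^ (2 * h) ≤ (M : ℝ) ^ (2 * h) * (1 / (t : ℝ) ^ 2) := by
      rw [div_pow, mul_one_div]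
      apply div_le_div_of_nonneg_left (by positivity) (by positivity)
      exact pow_le_pow_right₀ ht1 (by omega)
    have e2 : ((M : ℝ) ^ (1 - 1 / (8 * Q * 2 ^ Q : ℝ))) ^ (2 * h) = (M : ℝ) ^ (2 * h) * (1 / (M : ℝ) ^ Q) := by
      have e3 : (M : ℝ) ^ (2 * h) * (1 / (M : ℝ) ^ Q) = (M : ℝ) ^ (((2 * h : ℕ) : ℝ) - (Q : ℝ)) := by
        rw [Real.rpow_sub hMpos, Real.rpow_natCast, Real.rpow_natCast, mul_one_div]
      rw [e3, ← Real.rpow_natCast, ← Real.rpow_mul hMpos.le]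
      congr 1
      rw [hh]
      push_cast
      field_simp
      ring
    rw [e2]
    calc C₁ ^ (2 * h) * (2 ^ (2 * h) * (((M : ℝ) / t) ^ (2 * h) + (M : ℝ) ^ (2 * h) * (1 / (M : ℝ) ^ Q))) ≤
          C₁ ^ (2 * h) * (2 ^ (2 * h) * ((M : ℝ) ^ (2 * h) * (1 / (t : ℝ) ^ 2) + (M : ℝ) ^ (2 * h) * (1 / (M : ℝ) ^ Q))) := by
          gcongr
      _ = _ := by rw [hC₂, mul_pow]; ring
  have hsum : ∑ t ∈ Ico 1 R, ‖SS y ((t : ℝ) * (1 / P))‖ ^ (2 * h) ≤ 3 * C₂ * (M : ℝ) ^ (2 * h) := by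
    refine (sum_le_sum hSt).trans ?_
    rw [← mul_sum, sum_add_distrib]
    have e1 := sum_inv_sq R
    have e2 : ∑ _t ∈ Ico 1 R, 1 / (M : ℝ) ^ Q ≤ 1 := by
      rw [sum_const, Nat.card_Ico, nsmul_eq_mul, mul_one_div, div_le_one (by positivity)]
      have : ((R - 1 : ℕ) : ℝ) ≤ R := by exact_mod_cast Nat.sub_le _ _
      linarith
    have e3 : 0 ≤ C₂ * (M : ℝ) ^ (2 * h) := by positivity
    calc C₂ * (M : ℝ) ^ (2 * h) * (∑ t ∈ Ico 1 R, 1 / (t : ℝ) ^ 2 + ∑ _t ∈ Ico 1 R, 1 / (M : ℝ) ^ Q) ≤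
          C₂ * (M : ℝ) ^ (2 * h) * (2 + 1) := by gcongr
      _ = _ := by ring
  have hS0' : ‖SS y 0‖ ^ (2 * h) ≤ (M : ℝ) ^ (2 * h) := pow_le_pow_left₀ (norm_nonneg _) hS0 _
  set X : ℝ := (Nat.card {q : (Fin h → Fin M) × (Fin h → Fin M) //
        |∑ j, F ((M + (q.1 j : ℕ) : ℕ) : ℝ) - ∑ j, F ((M + (q.2 j : ℕ) : ℕ) : ℝ)| ≤ H} : ℝ) with hX
  have hX0 : 0 ≤ X := Nat.cast_nonneg _
  have h8 : X * R ≤ 2 * (1 + 6 * C₂) * (M : ℝ) ^ (2 * h) := by
    refine hc.trans ?_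
    have e3 : 0 ≤ C₂ * (M : ℝ) ^ (2 * h) := by positivity
    linarith
  calc X * P = (X * (P / (16 * H))) * (16 * H) := by field_simp
    _ ≤ (X * R) * (16 * H) := by gcongr
    _ ≤ (2 * (1 + 6 * C₂) * (M : ℝ) ^ (2 * h)) * (16 * H) := by gcongr
    _ = _ := by ring

/-- the integers at distance at most `J` (about) from `c + F(m)`, `M ≤ m < 2M` -/
noncomputable def fam (F : ℝ → ℝ) (c : ℤ) (M J : ℕ) : Fin M × Fin (2 * J + 1) → ℤ :=
  fun i => c + ⌊F ((M + (i.1 : ℕ) : ℕ) : ℝ)⌋ + (i.2 : ℕ) - J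

/-- **The additive energy of the integers near the values of a function of regular growth.** -/
theorem RegularGrowth.energy {F : ℝ → ℝ} (hF : RegularGrowth F) :
    ∃ h : ℕ, 1 ≤ h ∧ ∃ C : ℝ, 0 < C ∧ ∃ M₀ : ℕ, ∀ M : ℕ, M₀ ≤ M → ∀ J : ℕ, C * (J + 1) ≤ F M → ∀ c : ℤ,
      (Nat.card {q : (Fin h → Fin M × Fin (2 * J + 1)) × (Fin h → Fin M × Fin (2 * J + 1)) //
        ∑ j, fam F c M J (q.1 j) = ∑ j, fam F c M J (q.2 j)} : ℝ) * F M ≤
        C * (J + 1) * (Fintype.card (Fin M × Fin (2 * J + 1)) : ℝ) ^ (2 * h) := by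
  obtain ⟨h, hh, C, hC, M₀, h0⟩ := hF.count
  refine ⟨h, hh, C * (2 * h) + 16 * h, by positivity, M₀, fun M hM J hJ c => ?_⟩
  have hh' : (1 : ℝ) ≤ h := by exact_mod_cast hh
  have hJ0 : (0 : ℝ) ≤ J := Nat.cast_nonneg J
  set H : ℝ := 2 * h * (J + 1) with hH
  have hH1 : 1 ≤ H := by rw [hH]; nlinarith
  have h8H : 8 * H ≤ F M := by
    refine le_trans ?_ hJ
    rw [hH]
    have : 0 ≤ C * (2 * h) * (J + 1) := by positivity
    nlinarith
  have h1 := h0 M hM H hH1 h8H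
  have hFM : 0 < F M := by linarith
  -- the injection
  set W := {q : (Fin h → Fin M) × (Fin h → Fin M) //
        |∑ j, F ((M + (q.1 j : ℕ) : ℕ) : ℝ) - ∑ j, F ((M + (q.2 j : ℕ) : ℕ) : ℝ)| ≤ H} with hW
  have hclose : ∀ p : Fin h → Fin M × Fin (2 * J + 1),
      |∑ j, F ((M + ((p j).1 : ℕ) : ℕ) : ℝ) + h * (c : ℝ) - ((∑ j, fam F c M J (p j) : ℤ) : ℝ)| ≤ h * (J + 1) := by
    intro p
    have e1 : ∑ j, F ((M + ((p j).1 : ℕ) : ℕ) : ℝ) + h * (c : ℝ) - ((∑ j, fam F c M J (p j) : ℤ) : ℝ) =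
        ∑ j, (F ((M + ((p j).1 : ℕ) : ℕ) : ℝ) + c - (fam F c M J (p j) : ℝ)) := by
      rw [sum_sub_distrib, sum_add_distrib, sum_const, card_univ, Fintype.card_fin, nsmul_eq_mul]
      push_cast
      ring
    rw [e1]
    refine (abs_sum_le_sum_abs _ _).trans ?_
    have e2 : ∀ j ∈ (univ : Finset (Fin h)), |F ((M + ((p j).1 : ℕ) : ℕ) : ℝ) + c - (fam F c M J (p j) : ℝ)| ≤ J + 1 := by
      intro j _
      unfold fam
      push_cast
      set z := F ((M : ℝ) + (((p j).1 : ℕ) : ℝ)) with hz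
      have f1 := Int.floor_le z
      have f2 := Int.lt_floor_add_one z
      have f3 : (((p j).2 : ℕ) : ℝ) ≤ 2 * J := by
        have := (p j).2.2
        exact_mod_cast (by omega : ((p j).2 : ℕ) ≤ 2 * J)
      have f4 : (0 : ℝ) ≤ (((p j).2 : ℕ) : ℝ) := Nat.cast_nonneg _
      rw [abs_le]
      constructor <;> linarith
    refine (sum_le_sum e2).trans ?_
    rw [sum_const, card_univ, Fintype.card_fin, nsmul_eq_mul]
  have hinj : Nat.card {q : (Fin h → Fin M × Fin (2 * J + 1)) × (Fin h → Fin M × Fin (2 * J + 1)) //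
        ∑ j, fam F c M J (q.1 j) = ∑ j, fam F c M J (q.2 j)} ≤
      Nat.card (W × ((Fin h → Fin (2 * J + 1)) × (Fin h → Fin (2 * J + 1)))) := by
    apply Nat.card_le_card_of_injective (fun q =>
      (⟨(fun j => (q.1.1 j).1, fun j => (q.1.2 j).1), by
        have g1 := abs_le.1 (hclose q.1.1)
        have g2 := abs_le.1 (hclose q.1.2)
        have g3 : ((∑ j, fam F c M J (q.1.1 j) : ℤ) : ℝ) = ((∑ j, fam F c M J (q.1.2 j) : ℤ) : ℝ) := by
          exact_mod_cast q.2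
        rw [hH, abs_le]
        constructor <;> linarith [g1.1, g1.2, g2.1, g2.2]⟩,
        (fun j => (q.1.1 j).2, fun j => (q.1.2 j).2)))
    intro q q' hqq
    have g1 := congrArg (fun z => z.1.1.1) hqq
    have g2 := congrArg (fun z => z.1.1.2) hqq
    have g3 := congrArg (fun z => z.2.1) hqq
    have g4 := congrArg (fun z => z.2.2) hqq
    simp only at g1 g2 g3 g4
    apply Subtype.ext
    apply Prod.ext
    · funext j
      exact Prod.ext (congrFun g1 j) (congrFun g3 j)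
    · funext j
      exact Prod.ext (congrFun g2 j) (congrFun g4 j)
  have hcardW : (Nat.card (W × ((Fin h → Fin (2 * J + 1)) × (Fin h → Fin (2 * J + 1)))) : ℝ) =
      (Nat.card W : ℝ) * (2 * J + 1) ^ (2 * h) := by
    rw [Nat.card_prod, Nat.card_prod, Nat.card_fun, Nat.card_eq_fintype_card (α := Fin (2 * J + 1)),
      Nat.card_eq_fintype_card (α := Fin h), Fintype.card_fin, Fintype.card_fin]
    push_cast
    ring
  have hinj' : (Nat.card {q : (Fin h → Fin M × Fin (2 * J + 1)) × (Fin h → Fin M × Fin (2 * J + 1)) //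
        ∑ j, fam F c M J (q.1 j) = ∑ j, fam F c M J (q.2 j)} : ℝ) ≤ (Nat.card W : ℝ) * (2 * J + 1) ^ (2 * h) := by
    rw [← hcardW]
    exact_mod_cast hinj
  have hcard : (Fintype.card (Fin M × Fin (2 * J + 1)) : ℝ) = M * (2 * J + 1) := by
    rw [Fintype.card_prod, Fintype.card_fin, Fintype.card_fin]
    push_cast
    ring
  rw [hcard]
  calc _ ≤ ((Nat.card W : ℝ) * (2 * J + 1) ^ (2 * h)) * F M := by gcongr
    _ = ((Nat.card W : ℝ) * F M) * (2 * J + 1) ^ (2 * h) := by ring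
    _ ≤ (C * H * (M : ℝ) ^ (2 * h)) * (2 * J + 1) ^ (2 * h) := by gcongr
    _ = C * (2 * h) * (J + 1) * ((M : ℝ) * (2 * J + 1)) ^ (2 * h) := by rw [hH, mul_pow]; ring
    _ ≤ _ := by
      have e1 : 0 ≤ 16 * (h : ℝ) * (J + 1) * ((M : ℝ) * (2 * J + 1)) ^ (2 * h) := by positivity
      linarith

end Pool.Agent.T2H56.PS
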