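import Pool.Agent.H469R2.NK.ExpSum

/-!
# Exponential sums `∑ e(Z F(n))` for functions of regular growth (Weyl, van der Corput)

The proof follows the starting file `Pool.Agent.H706R2.PS.T2` (`F = log log`).
-/

set_option autoImplicit false

open Finset

namespace Pool.Agent.T2H56.PS

open Pool.Agent.H469R2.NK

/-- iterated differences -/
noncomputable def DD (F : ℝ → ℝ) : List ℕ → ℝ → ℝ
  | [], x => F x
  | l :: ls, x => DD F ls (x + l) - DD F ls x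

/-- two-sided bounds for the iterated differences of `F` of order at most `Q + 2` on `[N, 3N]` -/
structure Bd (Q : ℕ) (A B s : ℕ → ℝ) (F : ℝ → ℝ) (P : ℝ) (N : ℕ) : Prop where
  pos : 0 < P
  bd : ∀ (l : ℕ) (ls : List ℕ) (x : ℝ), ls.length ≤ Q + 1 → (N : ℝ) ≤ x →
    x + l + (ls.sum : ℕ) ≤ 3 * N →
    A ls.length * P / (N : ℝ) ^ (ls.length + 1) * ((l * ls.prod : ℕ)) ≤ s ls.length * DD F (l :: ls) x ∧
    s ls.length * DD F (l :: ls) x ≤ B ls.length * P / (N : ℝ) ^ (ls.length + 1) * ((l * ls.prod : ℕ))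

lemma DD_cons (F : ℝ → ℝ) (l : ℕ) (ls : List ℕ) (x : ℝ) : DD F (l :: ls) x = DD F ls (x + l) - DD F ls x := rfl

/-- the differenced sum -/
noncomputable def SL (F : ℝ → ℝ) (Z : ℝ) (a L : ℕ) (ls : List ℕ) : ℂ :=
  ∑ n ∈ range (L - ls.sum), e (Z * DD F ls (((a + n : ℕ) : ℝ)))

lemma SL_sq (F : ℝ → ℝ) (Z : ℝ) (a L H : ℕ) (ls : List ℕ) :
    (H : ℝ) * ‖SL F Z a L ls‖ ^ 2 ≤ (L + H) * (L + 2 * ∑ l ∈ Ico 1 H, ‖SL F Z a L (l :: ls)‖) := by
  have h := vdcH (fun n => e (Z * DD F ls (((a + n : ℕ) : ℝ)))) (fun n => (norm_e _).le) (L - ls.sum) H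
  have h1 : ∀ l, ∑ n ∈ range (L - ls.sum - l), e (Z * DD F ls (((a + (n + l) : ℕ) : ℝ))) *
      (starRingEnd ℂ) (e (Z * DD F ls (((a + n : ℕ) : ℝ)))) = SL F Z a L (l :: ls) := by
    intro l
    unfold SL
    rw [List.sum_cons, show L - (l + ls.sum) = L - ls.sum - l by omega]
    refine sum_congr rfl fun n _ => ?_
    rw [conj_e, ← e_add]
    congr 1
    rw [DD_cons]
    push_cast
    rw [show (a : ℝ) + n + l = a + (n + l) by ring]
    ring
  simp only [h1] at h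
  refine h.trans ?_
  have h2 : ((L - ls.sum : ℕ) : ℝ) ≤ L := by exact_mod_cast Nat.sub_le _ _
  gcongr

/-- last step: Kusmin–Landau -/
lemma SL_le {Q : ℕ} {A B s : ℕ → ℝ} (hA : ∀ q, 0 < A q) (hs : ∀ q, s q = 1 ∨ s q = -1)
    {F : ℝ → ℝ} {P : ℝ} {N : ℕ} (hF : Bd Q A B s F P N) (Z : ℝ) (hZ : 0 < Z) (a L : ℕ) (hN : 3 ≤ N) (ha : N ≤ a)
    (haL : a + L + 1 ≤ 3 * N) (ls : List ℕ) (hlen : ls.length ≤ Q) (hls : 0 < ls.prod)
    (hup : 2 * (Z * (B ls.length * P / (N : ℝ) ^ (ls.length + 1) * (ls.prod : ℕ))) ≤ 1) :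
    ‖SL F Z a L ls‖ ≤ 2 * (N : ℝ) ^ (ls.length + 1) / (Z * P * A ls.length * (ls.prod : ℕ)) := by
  have hN3 : (3 : ℝ) ≤ N := by exact_mod_cast hN
  have hN' : (0 : ℝ) < N := by linarith
  have hPr : (0 : ℝ) < (ls.prod : ℕ) := by exact_mod_cast hls
  have hP0 := hF.pos
  have hAl := hA ls.length
  rcases Nat.lt_or_ge L (ls.sum + 1) with hL | hL
  · unfold SL
    rw [show L - ls.sum = 0 by omega]
    simp only [range_zero, sum_empty, norm_zero]
    positivity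
  set θ : ℝ := Z * (A ls.length * P / (N : ℝ) ^ (ls.length + 1) * (ls.prod : ℕ)) with hθ
  have hθ0 : 0 < θ := by positivity
  set σ : ℝ := s ls.length with hσ
  have hσ1 : σ = 1 ∨ σ = -1 := hs _
  have hx1 : ∀ n < L - ls.sum, θ ≤ σ * (Z * DD F (1 :: ls) (((a + n : ℕ) : ℝ))) ∧
      σ * (Z * DD F (1 :: ls) (((a + n : ℕ) : ℝ))) ≤ 1 / 2 := by
    intro n hn
    have hxN : (N : ℝ) ≤ ((a + n : ℕ) : ℝ) := by exact_mod_cast (by omega : N ≤ a + n)
    have hx3 : ((a + n : ℕ) : ℝ) + 1 + (ls.sum : ℕ) ≤ 3 * N := by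
      exact_mod_cast (by omega : a + n + 1 + ls.sum ≤ 3 * N)
    have h := hF.bd 1 ls (((a + n : ℕ) : ℝ)) (by omega) hxN (by
      rw [Nat.cast_one]; linarith)
    simp only [one_mul] at h
    have e1 : σ * (Z * DD F (1 :: ls) (((a + n : ℕ) : ℝ))) =
      Z * (σ * DD F (1 :: ls) (((a + n : ℕ) : ℝ))) := by ring
    rw [e1]
    constructor
    · exact mul_le_mul_of_nonneg_left h.1 hZ.le
    · have h2 := mul_le_mul_of_nonneg_left h.2 hZ.le
      linarith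
  have hθ2 : θ ≤ 1 / 2 := (hx1 0 (by omega)).1.trans (hx1 0 (by omega)).2
  have hdiff : ∀ n : ℕ, σ * (Z * DD F ls (((a + (n + 1) : ℕ) : ℝ))) - σ * (Z * DD F ls (((a + n : ℕ) : ℝ))) =
      σ * (Z * DD F (1 :: ls) (((a + n : ℕ) : ℝ))) := by
    intro n
    rw [DD_cons]
    push_cast
    rw [show (a : ℝ) + n + 1 = a + (n + 1) by ring]
    ring
  have hdiff2 : ∀ n, n + 1 < L - ls.sum → 0 ≤ s (ls.length + 1) * (Z * DD F (1 :: ls) (((a + (n + 1) : ℕ) : ℝ)) -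
      Z * DD F (1 :: ls) (((a + n : ℕ) : ℝ))) := by
    intro n hn
    have hxN : (N : ℝ) ≤ ((a + n : ℕ) : ℝ) := by exact_mod_cast (by omega : N ≤ a + n)
    have hx3 : ((a + n : ℕ) : ℝ) + 1 + 1 + (ls.sum : ℕ) ≤ 3 * N := by
      exact_mod_cast (by omega : a + n + 1 + 1 + ls.sum ≤ 3 * N)
    have h := hF.bd 1 (1 :: ls) (((a + n : ℕ) : ℝ)) (by rw [List.length_cons]; omega) hxN (by
      rw [List.sum_cons]; push_cast at hx3 ⊢; linarith)
    simp only [List.length_cons, List.prod_cons, one_mul] at h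
    have h0 := h.1
    have hA1 := hA (ls.length + 1)
    have h1 : (0 : ℝ) ≤ s (ls.length + 1) * DD F (1 :: 1 :: ls) (((a + n : ℕ) : ℝ)) :=
      le_trans (by positivity) h0
    have h2 : DD F (1 :: 1 :: ls) (((a + n : ℕ) : ℝ)) =
        DD F (1 :: ls) (((a + (n + 1) : ℕ) : ℝ)) - DD F (1 :: ls) (((a + n : ℕ) : ℝ)) := by
      rw [DD_cons F 1 (1 :: ls)]
      push_cast
      rw [show (a : ℝ) + n + 1 = a + (n + 1) by ring]
    rw [h2] at h1
    have h3 := mul_nonneg hZ.le h1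
    calc 0 ≤ _ := h3
      _ = _ := by ring
  have hnorm : ‖SL F Z a L ls‖ = ‖∑ n ∈ range (L - ls.sum), e (σ * (Z * DD F ls (((a + n : ℕ) : ℝ))))‖ := by
    unfold SL
    rcases hσ1 with h | h
    · rw [h]; simp
    · rw [h, ← norm_sum_neg]
      congr 1
      refine sum_congr rfl fun n _ => ?_
      congr 1; ring
  have hKL : ‖∑ n ∈ range (L - ls.sum), e (σ * (Z * DD F ls (((a + n : ℕ) : ℝ))))‖ ≤ 2 / θ := by
    have hcase : (∀ n, n + 1 < L - ls.sum → σ * (Z * DD F (1 :: ls) (((a + n : ℕ) : ℝ))) ≤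
        σ * (Z * DD F (1 :: ls) (((a + (n + 1) : ℕ) : ℝ)))) ∨
      (∀ n, n + 1 < L - ls.sum → σ * (Z * DD F (1 :: ls) (((a + (n + 1) : ℕ) : ℝ))) ≤
        σ * (Z * DD F (1 :: ls) (((a + n : ℕ) : ℝ)))) := by
      rcases hσ1 with h | h <;> rcases hs (ls.length + 1) with h' | h'
      · left; intro n hn; have := hdiff2 n hn; rw [h'] at this; rw [h]; linarith
      · right; intro n hn; have := hdiff2 n hn; rw [h'] at this; rw [h]; linarith
      · right; intro n hn; have := hdiff2 n hn; rw [h'] at this; rw [h]; linarith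
      · left; intro n hn; have := hdiff2 n hn; rw [h'] at this; rw [h]; linarith
    rcases hcase with hc | hc
    · exact kusmin_landau_mono (fun n => σ * (Z * DD F ls (((a + n : ℕ) : ℝ)))) (L - ls.sum) hθ0
        (fun n hn => by rw [hdiff]; exact (hx1 n hn).1)
        (fun n hn => by rw [hdiff]; linarith [(hx1 n hn).2])
        (fun n hn => by
          rw [hdiff, hdiff]
          exact hc n hn)
    · exact kusmin_landau_anti (fun n => σ * (Z * DD F ls (((a + n : ℕ) : ℝ)))) (L - ls.sum) hθ0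
        (fun n hn => by rw [hdiff]; exact (hx1 n hn).1)
        (fun n hn => by rw [hdiff]; linarith [(hx1 n hn).2])
        (fun n hn => by
          rw [hdiff, hdiff]
          exact hc n hn)
  rw [hnorm]
  refine hKL.trans (le_of_eq ?_)
  rw [hθ]
  field_simp

lemma exp_bound {Q : ℕ} {A B s : ℕ → ℝ} (hA : ∀ q, 0 < A q) (hB : ∀ q, 1 ≤ B q) (hs : ∀ q, s q = 1 ∨ s q = -1)
    {F : ℝ → ℝ} {P : ℝ} {N : ℕ} (hF : Bd Q A B s F P N) (q : ℕ) (hqQ : q ≤ Q) (Z : ℝ) (hZ : 0 < Z) (a L H : ℕ)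
    (hN : 3 ≤ N) (ha : N ≤ a) (hL : L ≤ N)
    (haL : a + L + 1 ≤ 3 * N) (hH : 1 ≤ H) (hHN : H ≤ N)
    (hup : 2 * (Z * (B q * P / (N : ℝ) ^ (q + 1) * (H : ℝ) ^ q)) ≤ 1) :
    (‖SL F Z a L []‖ / N) ^ (2 ^ q) ≤ Cq q * (1 / H +
      (2 * (N : ℝ) ^ (q + 1) / (Z * P * A q) / N) * ((∑ l ∈ Ico 1 H, (1 : ℝ) / l) / H) ^ q) := by
  have hN3 : (3 : ℝ) ≤ N := by exact_mod_cast hN
  have hN' : (1 : ℝ) ≤ N := by linarith
  have hH' : (1 : ℝ) ≤ H := by exact_mod_cast hH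
  have hL' : (L : ℝ) ≤ N := by exact_mod_cast hL
  have hHN' : (H : ℝ) ≤ N := by exact_mod_cast hHN
  have hBq : 0 < B q := lt_of_lt_of_le one_pos (hB q)
  have hP0 := hF.pos
  have hAq := hA q
  have hstep : ∀ ls : List ℕ, (‖SL F Z a L ls‖ / N) ^ 2 ≤
      2 / H + 4 * ((∑ l ∈ Ico 1 H, ‖SL F Z a L (l :: ls)‖ / N) / H) := by
    intro ls
    have h := SL_sq F Z a L H ls
    set Sg := ∑ l ∈ Ico 1 H, ‖SL F Z a L (l :: ls)‖ with hSg
    have hSg0 : 0 ≤ Sg := sum_nonneg fun _ _ => norm_nonneg _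
    have h2 : (H : ℝ) * ‖SL F Z a L ls‖ ^ 2 ≤ (2 * N) * (N + 2 * Sg) := by
      refine h.trans ?_
      have : (L : ℝ) + H ≤ 2 * N := by linarith
      gcongr
    rw [← sum_div, ← hSg]
    have e1 : 2 / (H : ℝ) + 4 * (Sg / N / H) = ((2 * N) * (N + 2 * Sg)) / (H * N ^ 2) := by
      field_simp
      ring
    rw [e1, div_pow, div_le_div_iff₀ (by positivity) (by positivity)]
    calc ‖SL F Z a L ls‖ ^ 2 * (H * N ^ 2) = ((H : ℝ) * ‖SL F Z a L ls‖ ^ 2) * N ^ 2 := by ring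
      _ ≤ _ := by gcongr
  have hit := iterate hH (fun ls => ‖SL F Z a L ls‖ / N) (fun ls => by positivity) hstep q []
  refine hit.trans ?_
  have hC := Cq_pos q
  gcongr
  have := Av_le (H := H) (T := fun ls => ‖SL F Z a L ls‖ / N)
    (κ := 2 * (N : ℝ) ^ (q + 1) / (Z * P * A q) / N) q (by
      intro ls hlen hent
      have hpos : 0 < ls.prod := List.prod_pos fun l hl => (hent l hl).1
      have hle : ls.prod ≤ H ^ q := by
        have := List.prod_le_pow_card ls H (fun l hl => (hent l hl).2.le)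
        rwa [hlen] at this
      have hle' : ((ls.prod : ℕ) : ℝ) ≤ (H : ℝ) ^ q := by exact_mod_cast hle
      have h1 := SL_le hA hs hF Z hZ a L hN ha haL ls (by rw [hlen]; exact hqQ) hpos (by
        rw [hlen]
        refine le_trans ?_ hup
        gcongr)
      rw [hlen] at h1
      have hP : (0 : ℝ) < (ls.prod : ℕ) := by exact_mod_cast hpos
      calc ‖SL F Z a L ls‖ / N ≤ (2 * (N : ℝ) ^ (q + 1) / (Z * P * A q * (ls.prod : ℕ))) / N := by gcongr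
        _ = _ := by field_simp) q [] (by simp) (by simp)
  simpa using this

lemma alg_aux' (C2 A4 P n T AA c2 hQ : ℝ) (hT : T ≠ 0) (hn : n ≠ 0) (hA : AA ≠ 0) (hh : hQ ≠ 0) :
    (2 * (n * P) / (T * AA) / n) * (C2 * A4 * c2 / hQ) = (2 / AA) * c2 * C2 * ((A4 * P) / (T * hQ)) := by
  field_simp

/-- **Exponential sums `∑ e(Z F(n))` over a short interval.** -/
theorem expBound (Q : ℕ) (hQ : 1 ≤ Q) (A B s : ℕ → ℝ) (hA : ∀ q, 0 < A q) (hB : ∀ q, 1 ≤ B q)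
    (hs : ∀ q, s q = 1 ∨ s q = -1) :
    ∃ C : ℝ, 0 < C ∧ ∀ (F : ℝ → ℝ) (P : ℝ) (N : ℕ), 3 ≤ N → Bd Q A B s F P N →
      ∀ (a L : ℕ) (Z : ℝ), N ≤ a → L ≤ N → a + L + 1 ≤ 3 * N → 1 ≤ Z * P → Z * P ≤ (N : ℝ) ^ Q →
      ‖∑ n ∈ range L, e (Z * F (((a + n : ℕ)) : ℝ))‖ ≤
        C * (N / (Z * P) + (N : ℝ) ^ (1 - 1 / (8 * Q * 2 ^ Q : ℝ))) := by
  set η : ℝ := 1 / (8 * Q * 2 ^ Q) with hη
  have hQ' : (1 : ℝ) ≤ Q := by exact_mod_cast hQ
  have hη0 : 0 < η := by rw [hη]; positivity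
  have h2Q1 : (1 : ℝ) ≤ 2 ^ Q := one_le_pow₀ (by norm_num)
  have hη1 : η ≤ 1 := by
    rw [hη, div_le_one (by positivity)]
    nlinarith
  have hηQ : η ≤ 1 / (8 * Q * 2 ^ Q) := le_rfl
  set N0 : ℝ := max 16 (max ((2 * B 0) ^ 4) ((2 * B Q) ^ 2)) with hN0
  set K : ℝ := Cq Q * (2 + (2 / A Q) * 2 ^ Q * (1 + 4 * Q) ^ Q) with hK
  have hCq := Cq_pos Q
  have hAQ := hA Q
  have hA0 := hA 0
  have hK0 : 0 < K := by rw [hK]; positivity
  set C : ℝ := max (max (2 / A 0) N0) (K ^ ((1 : ℝ) / 2 ^ Q)) with hC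
  have hCpos : 0 < C := by
    have : 0 < 2 / A 0 := by positivity
    exact lt_of_lt_of_le this ((le_max_left _ _).trans (le_max_left _ _))
  refine ⟨C, hCpos, ?_⟩
  intro F P N hN hF a L Z ha hL haL hZ1 hZ2
  have hP0 := hF.pos
  have hN3 : (3 : ℝ) ≤ N := by exact_mod_cast hN
  have hN' : (1 : ℝ) ≤ N := by linarith
  have hNpos : (0 : ℝ) < N := by linarith
  have hC18 : 2 / A 0 ≤ C := (le_max_left _ _).trans (le_max_left _ _)
  have hCN0 : N0 ≤ C := (le_max_right _ _).trans (le_max_left _ _)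
  have hCK : K ^ ((1 : ℝ) / 2 ^ Q) ≤ C := le_max_right _ _
  have hT : 0 < Z * P := by linarith
  have hZ : 0 < Z := by
    by_contra hcon
    push Not at hcon
    have : Z * P ≤ 0 := mul_nonpos_of_nonpos_of_nonneg hcon hP0.le
    linarith
  set T : ℝ := Z * P with hTdef
  have hSS : ∑ n ∈ range L, e (Z * F (((a + n : ℕ)) : ℝ)) = SL F Z a L [] := by
    unfold SL
    simp only [List.sum_nil, Nat.sub_zero, DD]
  rw [hSS]
  have htriv : ‖SL F Z a L []‖ ≤ N := by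
    unfold SL
    refine (norm_sum_le _ _).trans ?_
    simp only [norm_e, sum_const, card_range, nsmul_eq_mul, mul_one, List.sum_nil, Nat.sub_zero]
    exact_mod_cast hL
  have hNZ : 0 ≤ (N : ℝ) / T := by positivity
  have hNη : 0 ≤ (N : ℝ) ^ (1 - η) := by positivity
  have hC0 : 0 ≤ C := hCpos.le
  rcases lt_or_ge (N : ℝ) N0 with hsmall | hbig
  · refine htriv.trans ?_
    calc (N : ℝ) ≤ N0 * 1 := by linarith
      _ ≤ C * (N : ℝ) ^ (1 - η) := by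
        gcongr
        exact Real.one_le_rpow hN' (by linarith)
      _ ≤ _ := by
        apply mul_le_mul_of_nonneg_left _ hC0
        linarith
  have h16 : (16 : ℝ) ≤ N := (le_max_left _ _).trans hbig
  have hB0 : (2 * B 0) ^ 4 ≤ N := ((le_max_left _ _).trans (le_max_right _ _)).trans hbig
  have hBQ : (2 * B Q) ^ 2 ≤ N := ((le_max_right _ _).trans (le_max_right _ _)).trans hbig
  have hB0p : 0 < B 0 := lt_of_lt_of_le one_pos (hB 0)
  have hBQp : 0 < B Q := lt_of_lt_of_le one_pos (hB Q)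
  rcases le_or_gt T ((N : ℝ) ^ (3 / 4 : ℝ)) with hcase | hcase
  · -- direct Kusmin–Landau
    have h1 := SL_le hA hs hF Z hZ a L hN ha haL [] (by simp) (by simp) (by
      simp only [List.length_nil, zero_add, Nat.cast_one, List.prod_nil, mul_one,
        pow_one]
      have e1 : 2 * B 0 ≤ (N : ℝ) ^ (1 / 4 : ℝ) := by
        calc 2 * B 0 = ((2 * B 0) ^ 4) ^ (1 / 4 : ℝ) := by
              rw [← Real.rpow_natCast, ← Real.rpow_mul (by positivity)]; norm_num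
          _ ≤ _ := by gcongr
      have e2 : (N : ℝ) ^ (3 / 4 : ℝ) * (N : ℝ) ^ (1 / 4 : ℝ) = (N : ℝ) := by
        rw [← Real.rpow_add hNpos]; norm_num
      have e3 : 2 * (Z * (B 0 * P / N)) = (2 * B 0 * T) / N := by rw [hTdef]; ring
      rw [e3, div_le_one (by positivity)]
      calc 2 * B 0 * T ≤ (N : ℝ) ^ (1 / 4 : ℝ) * (N : ℝ) ^ (3 / 4 : ℝ) := by gcongr
        _ = _ := by rw [mul_comm, e2])
    simp only [List.length_nil, zero_add, Nat.cast_one, List.prod_nil, mul_one,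
      pow_one] at h1
    refine h1.trans ?_
    calc 2 * (N : ℝ) / (Z * P * A 0) = (2 / A 0) * (N / T) := by rw [hTdef]; field_simp
      _ ≤ C * (N / T) := by gcongr
      _ ≤ _ := by
        apply mul_le_mul_of_nonneg_left _ hC0
        linarith
  · -- Weyl - van der Corput
    set h : ℝ := ((N : ℝ) ^ (Q + 1 / 2 : ℝ) / T) ^ ((1 : ℝ) / Q) with hh
    have hhQ : h ^ Q = (N : ℝ) ^ (Q + 1 / 2 : ℝ) / T := by
      have hQne : (Q : ℝ) ≠ 0 := by linarith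
      rw [hh, ← Real.rpow_natCast, ← Real.rpow_mul (by positivity), one_div_mul_cancel hQne, Real.rpow_one]
    have hh0 : 0 ≤ h := by rw [hh]; positivity
    have hlow : (N : ℝ) ^ (1 / 2 : ℝ) ≤ h ^ Q := by
      rw [hhQ, le_div_iff₀ hT]
      calc (N : ℝ) ^ (1 / 2 : ℝ) * T ≤ (N : ℝ) ^ (1 / 2 : ℝ) * (N : ℝ) ^ (Q : ℕ) := by gcongr
        _ = _ := by
          rw [← Real.rpow_natCast, ← Real.rpow_add hNpos]
          congr 1; ring
    have hupp : h ^ Q ≤ (N : ℝ) ^ Q := by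
      rw [hhQ, div_le_iff₀ hT]
      calc (N : ℝ) ^ (Q + 1 / 2 : ℝ) ≤ (N : ℝ) ^ (Q + 3 / 4 : ℝ) := by
            apply Real.rpow_le_rpow_of_exponent_le hN'; linarith
        _ = (N : ℝ) ^ Q * (N : ℝ) ^ (3 / 4 : ℝ) := by
            rw [Real.rpow_add hNpos, Real.rpow_natCast]
        _ ≤ _ := by gcongr
    have hhN : h ≤ N := le_of_pow_le_pow_left₀ (by omega) (by positivity) hupp
    have hN12 : (1 : ℝ) ≤ (N : ℝ) ^ (1 / 2 : ℝ) := Real.one_le_rpow hN' (by norm_num)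
    have hh1 : 1 ≤ h := by
      by_contra hlt
      rw [not_le] at hlt
      have : h ^ Q ≤ 1 := pow_le_one₀ hh0 hlt.le
      have h4 : (4 : ℝ) ≤ (N : ℝ) ^ (1 / 2 : ℝ) := by
        calc (4 : ℝ) = (16 : ℝ) ^ (1 / 2 : ℝ) := by
              rw [show (16 : ℝ) = 4 ^ (2 : ℝ) by norm_num, ← Real.rpow_mul (by norm_num)]; norm_num
          _ ≤ _ := by gcongr
      linarith
    set H : ℕ := ⌊h⌋₊ with hH
    have hH1 : 1 ≤ H := Nat.one_le_floor_iff _ |>.mpr hh1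
    have hHle : (H : ℝ) ≤ h := Nat.floor_le hh0
    have hHN : H ≤ N := by exact_mod_cast hHle.trans hhN
    have hHge : h / 2 ≤ H := by
      have h1 : h < H + 1 := Nat.lt_floor_add_one h
      have h2 : (1 : ℝ) ≤ H := by exact_mod_cast hH1
      linarith
    have hH1' : (1 : ℝ) ≤ H := by exact_mod_cast hH1
    have hsq : 2 * B Q ≤ (N : ℝ) ^ (1 / 2 : ℝ) := by
      rw [← Real.sqrt_eq_rpow]
      exact Real.le_sqrt_of_sq_le hBQ
    have hZh : T * h ^ Q = (N : ℝ) ^ (Q + 1 / 2 : ℝ) := by rw [hhQ]; field_simp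
    have hcond : 2 * (Z * (B Q * P / (N : ℝ) ^ (Q + 1) * (H : ℝ) ^ Q)) ≤ 1 := by
      have e1 : (N : ℝ) ^ (Q + 1) = (N : ℝ) ^ (Q + 1 / 2 : ℝ) * (N : ℝ) ^ (1 / 2 : ℝ) := by
        rw [← Real.rpow_add hNpos, ← Real.rpow_natCast]; congr 1; push_cast; ring
      have e2 : 2 * (Z * (B Q * P / (N : ℝ) ^ (Q + 1) * (H : ℝ) ^ Q)) =
          (2 * B Q) * (T * (H : ℝ) ^ Q) / (N : ℝ) ^ (Q + 1) := by
        rw [hTdef]; ring
      rw [e2, div_le_one (by positivity), e1, ← hZh]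
      calc (2 * B Q) * (T * (H : ℝ) ^ Q) ≤ (N : ℝ) ^ (1 / 2 : ℝ) * (T * h ^ Q) := by gcongr
        _ = _ := by ring
    have hb := exp_bound hA hB hs hF Q le_rfl Z hZ a L H hN ha hL haL hH1 hHN hcond
    -- first term
    have hhlow : (N : ℝ) ^ ((1 : ℝ) / (2 * Q)) ≤ h := by
      have : ((N : ℝ) ^ ((1 : ℝ) / (2 * Q))) ^ Q ≤ h ^ Q := by
        rw [← Real.rpow_natCast, ← Real.rpow_mul (by positivity)]
        refine le_trans (le_of_eq ?_) hlow
        congr 1; field_simp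
      exact le_of_pow_le_pow_left₀ (by omega) hh0 this
    have hQpos : (0 : ℝ) < Q := by linarith
    have hterm1 : 1 / (H : ℝ) ≤ 2 * (N : ℝ) ^ (-(1 : ℝ) / (8 * Q)) := by
      have h1 : (0 : ℝ) < (N : ℝ) ^ ((1 : ℝ) / (8 * Q)) := by positivity
      have h2 : (N : ℝ) ^ ((1 : ℝ) / (8 * Q)) ≤ (N : ℝ) ^ ((1 : ℝ) / (2 * Q)) := by
        apply Real.rpow_le_rpow_of_exponent_le hN'
        gcongr; norm_num
      rw [neg_div, Real.rpow_neg (by positivity), ← div_eq_mul_inv, div_le_div_iff₀ (by positivity) h1]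
      linarith
    have hlog : 1 + Real.log H ≤ (1 + 4 * Q) * (N : ℝ) ^ ((1 : ℝ) / (4 * Q)) := by
      have h1 : Real.log H ≤ Real.log N := Real.log_le_log (by positivity) (by exact_mod_cast hHN)
      have h2 := Real.log_le_rpow_div (x := N) (ε := (1 : ℝ) / (4 * Q)) (by positivity) (by positivity)
      have h3 : (N : ℝ) ^ ((1 : ℝ) / (4 * Q)) / ((1 : ℝ) / (4 * Q)) = 4 * Q * (N : ℝ) ^ ((1 : ℝ) / (4 * Q)) := by
        field_simp
      have h4 : (1 : ℝ) ≤ (N : ℝ) ^ ((1 : ℝ) / (4 * Q)) := Real.one_le_rpow hN' (by positivity)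
      rw [h3] at h2
      nlinarith
    have hterm2 : (2 * (N : ℝ) ^ (Q + 1) / (T * A Q) / N) *
          ((∑ l ∈ Ico 1 H, (1 : ℝ) / l) / H) ^ Q ≤
        (2 / A Q) * 2 ^ Q * (1 + 4 * Q) ^ Q * (N : ℝ) ^ (-(1 : ℝ) / (8 * Q)) := by
      have hs0 : 0 ≤ ∑ l ∈ Ico 1 H, (1 : ℝ) / l := sum_nonneg fun _ _ => by positivity
      have h1 : ((∑ l ∈ Ico 1 H, (1 : ℝ) / l) / H) ^ Q ≤
          (((1 + 4 * Q) * (N : ℝ) ^ ((1 : ℝ) / (4 * Q))) / (h / 2)) ^ Q := by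
        gcongr
        exact (harm_le H).trans hlog
      have h2 : (((1 + 4 * Q) * (N : ℝ) ^ ((1 : ℝ) / (4 * Q))) / (h / 2)) ^ Q =
          (1 + 4 * Q) ^ Q * (N : ℝ) ^ ((1 : ℝ) / 4) * 2 ^ Q / h ^ Q := by
        rw [div_pow, mul_pow, div_pow, div_div_eq_mul_div]
        congr 3
        rw [← Real.rpow_natCast, ← Real.rpow_mul (by positivity)]
        congr 1; field_simp
      have h3 : (N : ℝ) ^ ((1 : ℝ) / 4) * (N : ℝ) ^ Q * (N : ℝ) ^ ((1 : ℝ) / (8 * Q)) ≤ T * h ^ Q := by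
        rw [hZh, ← Real.rpow_natCast, ← Real.rpow_add hNpos, ← Real.rpow_add hNpos]
        apply Real.rpow_le_rpow_of_exponent_le hN'
        have : (1 : ℝ) / (8 * Q) ≤ 1 / 4 := by
          rw [div_le_div_iff₀ (by positivity) (by norm_num)]; linarith
        linarith
      have hNQ : (0 : ℝ) < (N : ℝ) ^ ((1 : ℝ) / (8 * Q)) := by positivity
      have hfrac : (((N : ℝ) ^ ((1 : ℝ) / 4) * (N : ℝ) ^ Q) / (T * h ^ Q)) ≤ (N : ℝ) ^ (-(1 : ℝ) / (8 * Q)) := by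
        rw [neg_div, Real.rpow_neg (by positivity), ← one_div, div_le_div_iff₀ (by positivity) hNQ]
        linarith
      calc _ ≤ (2 * (N : ℝ) ^ (Q + 1) / (T * A Q) / N) *
            ((1 + 4 * Q) ^ Q * (N : ℝ) ^ ((1 : ℝ) / 4) * 2 ^ Q / h ^ Q) := by rw [← h2]; gcongr
        _ = (2 / A Q) * 2 ^ Q * (1 + 4 * Q) ^ Q *
            (((N : ℝ) ^ ((1 : ℝ) / 4) * (N : ℝ) ^ Q) / (T * h ^ Q)) := by
            rw [pow_succ' (N : ℝ) Q]
            have hhpos : h ^ Q ≠ 0 := by positivity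
            exact alg_aux' _ _ _ _ _ _ _ _ hT.ne' hNpos.ne' hAQ.ne' hhpos
        _ ≤ _ := by
            gcongr
    have hfin : (‖SL F Z a L []‖ / N) ^ (2 ^ Q) ≤ K * (N : ℝ) ^ (-(1 : ℝ) / (8 * Q)) := by
      refine hb.trans ?_
      calc _ ≤ Cq Q * (2 * (N : ℝ) ^ (-(1 : ℝ) / (8 * Q)) +
            (2 / A Q) * 2 ^ Q * (1 + 4 * Q) ^ Q * (N : ℝ) ^ (-(1 : ℝ) / (8 * Q))) := by
            gcongr
        _ = _ := by rw [hK]; ring
    have hroot : ‖SL F Z a L []‖ / N ≤ K ^ ((1 : ℝ) / 2 ^ Q) * (N : ℝ) ^ (-η) := by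
      have h1 : (‖SL F Z a L []‖ / N) = ((‖SL F Z a L []‖ / N) ^ (2 ^ Q)) ^ ((1 : ℝ) / 2 ^ Q) := by
        rw [← Real.rpow_natCast, ← Real.rpow_mul (by positivity)]
        push_cast
        rw [mul_one_div_cancel (by positivity), Real.rpow_one]
      rw [h1]
      calc _ ≤ (K * (N : ℝ) ^ (-(1 : ℝ) / (8 * Q))) ^ ((1 : ℝ) / 2 ^ Q) := by gcongr
        _ = K ^ ((1 : ℝ) / 2 ^ Q) * (N : ℝ) ^ (-(1 : ℝ) / (8 * Q) * (1 / 2 ^ Q)) := by
            rw [Real.mul_rpow hK0.le (by positivity), ← Real.rpow_mul (by positivity)]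
        _ ≤ _ := by
            gcongr
            have : -(1 : ℝ) / (8 * Q) * (1 / 2 ^ Q) = -(1 / (8 * Q * 2 ^ Q)) := by
              field_simp
            rw [this]
    rw [div_le_iff₀ hNpos] at hroot
    calc ‖SL F Z a L []‖ ≤ K ^ ((1 : ℝ) / 2 ^ Q) * (N : ℝ) ^ (-η) * N := hroot
      _ ≤ C * (N : ℝ) ^ (-η) * N := by gcongr
      _ = C * (N : ℝ) ^ (1 - η) := by
        rw [mul_assoc, sub_eq_neg_add, Real.rpow_add hNpos, Real.rpow_one]
      _ ≤ _ := by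
        apply mul_le_mul_of_nonneg_left _ hC0
        linarith

end Pool.Agent.T2H56.PS
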