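import Pool.Agent.T2H56.PS.Energy

/-!
# From thin families to the integers near the values of a function of regular growth
-/

set_option autoImplicit false

open Finset Filter

namespace Pool.Agent.T2H56.PS

/-- `C (log M) ^ k ≤ M ^ a` for all large `M` -/
lemma ev_log_pow (k : ℕ) (C a : ℝ) (ha : 0 < a) : ∃ M₀ : ℕ, ∀ M : ℕ, M₀ ≤ M → C * Real.log M ^ k ≤ (M : ℝ) ^ a := by
  have h1 := isLittleO_log_rpow_rpow_atTop (k : ℝ) ha
  have h2 := h1.const_mul_left C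
  have h3 := (h2.bound (c := 1) one_pos)
  have h4 := tendsto_natCast_atTop_atTop.eventually h3
  obtain ⟨M₀, h5⟩ := eventually_atTop.1 h4
  refine ⟨max M₀ 1, fun M hM => ?_⟩
  have h6 := h5 M (le_trans (le_max_left _ _) hM)
  rw [one_mul, Real.norm_eq_abs, Real.norm_eq_abs, Real.rpow_natCast] at h6
  refine (le_abs_self _).trans (h6.trans (le_of_eq (abs_of_nonneg ?_)))
  positivity

lemma ev_log (C : ℝ) : ∃ M₀ : ℕ, ∀ M : ℕ, M₀ ≤ M → C ≤ Real.log M := by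
  have h4 := (Real.tendsto_log_atTop.comp tendsto_natCast_atTop_atTop).eventually (eventually_ge_atTop C)
  obtain ⟨M₀, h5⟩ := eventually_atTop.1 h4
  exact ⟨M₀, fun M hM => h5 M hM⟩

/-- A thin family theorem: the property `Bad` fails for almost all members of the families of nearly minimal energy. -/
def Thin (Bad : ℕ → ℤ → Prop) : Prop :=
  ∀ h C U : ℕ, 1 ≤ h → ∃ N₀ : ℕ, ∀ N : ℕ, N₀ ≤ N → ∀ (ι : Type) [Fintype ι] (v : ι → ℤ), (∀ i, |v i| ≤ N) →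
    (Nat.card {q : (Fin h → ι) × (Fin h → ι) // ∑ j, v (q.1 j) = ∑ j, v (q.2 j)} : ℝ) * N ≤
      Real.log N ^ C * (Fintype.card ι : ℝ) ^ (2 * h) →
    ∀ S : Finset ι, (∀ i ∈ S, Bad N (v i)) → (S.card : ℝ) ≤ Fintype.card ι / Real.log N ^ U

open Classical in
/-- **Transfer to the integers near the values of a function of regular growth.** -/
theorem RegularGrowth.transfer {F : ℝ → ℝ} (hF : RegularGrowth F) (B W U : ℕ) :
    ∃ D₀ : ℕ, ∃ L₀ : ℝ, 1 ≤ L₀ ∧ ∀ Bad : ℕ → ℤ → Prop, Thin Bad → ∃ M₀ : ℕ, ∀ M : ℕ, M₀ ≤ M →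
      (1 ≤ F M ∧ Real.log M ≤ L₀ * Real.log (⌈D₀ * F M⌉₊ : ℕ) ∧ Real.log (⌈D₀ * F M⌉₊ : ℕ) ≤ L₀ * Real.log M ∧
        F M ≤ (⌈D₀ * F M⌉₊ : ℕ) ∧ ((⌈D₀ * F M⌉₊ : ℕ) : ℝ) ≤ (D₀ + 1) * F M ∧ M ≤ (⌈D₀ * F M⌉₊ : ℕ) ^ ⌈L₀⌉₊) ∧
      ∀ c : ℤ, |(c : ℝ)| ≤ B * F M →
        (((Ico M (2 * M)).filter (fun m : ℕ => ∃ Q : ℤ, |(Q : ℝ) - c - F m| ≤ Real.log M ^ W ∧
          Bad ⌈D₀ * F M⌉₊ Q)).card : ℝ) ≤ M / Real.log M ^ U := by
  obtain ⟨a, D, c₀, C₀, x₀, K, ha, hc₀, hC₀, hD, hx₀, hgr, hmono⟩ := hF.growth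
  obtain ⟨h, hh, C, hC, M₁, hen⟩ := hF.energy
  set D₀ : ℕ := B + ⌈D⌉₊ + 2 with hD₀
  set L₀ : ℝ := max (2 / a) (K + 1) with hL₀
  have hL1 : 1 ≤ L₀ := le_trans (by have : (0 : ℝ) ≤ K := Nat.cast_nonneg K; linarith) (le_max_right _ _)
  refine ⟨D₀, L₀, hL1, fun Bad hBad => ?_⟩
  obtain ⟨N₀, hN₀⟩ := hBad h (W + 3) (U + W + 2) hh
  obtain ⟨M₂, h2⟩ := ev_log_pow (W + 1) ((2 * C + 2) / c₀) a ha
  obtain ⟨M₃, h3⟩ := ev_log (max 3 (-(2 * Real.log c₀) / a))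
  obtain ⟨M₄, h4⟩ := ev_log (L₀ * ((D₀ + 1) * C * 2 * L₀ ^ (W + 1) + 3 * L₀ ^ (U + W + 1) + 1))
  obtain ⟨M₅, h5⟩ := ev_log_pow 0 ((N₀ + 1) / c₀) a ha
  refine ⟨M₁ + M₂ + M₃ + M₄ + M₅ + ⌈x₀⌉₊ + 1 + ⌈(D₀ + 1) * C₀⌉₊ + 1, fun M hM => ?_⟩
  have hMx : x₀ < M := by
    have h1 : x₀ ≤ ⌈x₀⌉₊ := Nat.le_ceil _
    have h2 : ((⌈x₀⌉₊ + 1 : ℕ) : ℝ) ≤ M := by exact_mod_cast (by omega : ⌈x₀⌉₊ + 1 ≤ M)
    push_cast at h2
    linarith
  have hM1 : (1 : ℝ) < M := by linarith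
  have hM0 : (0 : ℝ) < M := by linarith
  have g2 := h2 M (by omega)
  have g3 := h3 M (by omega)
  have g4 := h4 M (by omega)
  have g5 := h5 M (by omega)
  have hl3 : 3 ≤ Real.log M := le_trans (le_max_left _ _) g3
  have hl0 : 0 < Real.log M := by linarith
  have hg := hgr M hMx
  set P := F M with hP
  have hMa : 0 < (M : ℝ) ^ a := by positivity
  have hPpow : (2 * C + 2) * Real.log M ^ (W + 1) ≤ P := by
    calc (2 * C + 2) * Real.log M ^ (W + 1) = c₀ * ((2 * C + 2) / c₀ * Real.log M ^ (W + 1)) := by field_simp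
      _ ≤ c₀ * (M : ℝ) ^ a := by gcongr
      _ ≤ P := hg.2.1
  have hlW : 3 ≤ Real.log M ^ (W + 1) := by
    calc (3 : ℝ) ≤ Real.log M ^ 1 := by rw [pow_one]; exact hl3
      _ ≤ _ := pow_le_pow_right₀ (by linarith) (by omega)
  have hP1 : 1 ≤ P := by nlinarith
  have hPN : (N₀ : ℝ) ≤ P := by
    have : (N₀ + 1 : ℝ) ≤ P := by
      calc (N₀ + 1 : ℝ) = c₀ * ((N₀ + 1) / c₀ * Real.log M ^ 0) := by rw [pow_zero]; field_simp
        _ ≤ c₀ * (M : ℝ) ^ a := by gcongr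
        _ ≤ P := hg.2.1
    linarith
  set N : ℕ := ⌈(D₀ : ℝ) * P⌉₊ with hN
  have hD₀2 : (2 : ℝ) ≤ D₀ := by
    rw [hD₀]
    push_cast
    have : (0 : ℝ) ≤ B := Nat.cast_nonneg B
    have : (0 : ℝ) ≤ (⌈D⌉₊ : ℝ) := Nat.cast_nonneg _
    linarith
  have hNge : (D₀ : ℝ) * P ≤ N := Nat.le_ceil _
  have hNle : (N : ℝ) ≤ D₀ * P + 1 := (Nat.ceil_lt_add_one (by positivity)).le
  have hPN' : P ≤ N := by nlinarith
  have hNP : (N : ℝ) ≤ (D₀ + 1) * P := by linarith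
  have hNN : N₀ ≤ N := by exact_mod_cast hPN.trans hPN'
  have hNpos : (0 : ℝ) < N := by linarith
  have hlogN1 : Real.log M ≤ L₀ * Real.log N := by
    have e1 : Real.log c₀ + a * Real.log M ≤ Real.log N := by
      rw [← Real.log_rpow hM0, ← Real.log_mul hc₀.ne' hMa.ne']
      exact Real.log_le_log (by positivity) (hg.2.1.trans hPN')
    have e2 : -(2 * Real.log c₀) / a ≤ Real.log M := le_trans (le_max_right _ _) g3
    rw [div_le_iff₀ ha] at e2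
    have e3 : a * Real.log M ≤ 2 * Real.log N := by linarith
    have e4 : Real.log M ≤ 2 / a * Real.log N := by
      rw [div_mul_eq_mul_div, le_div_iff₀ ha]
      linarith
    refine e4.trans ?_
    have : 0 ≤ Real.log N := Real.log_natCast_nonneg N
    gcongr
    exact le_max_left _ _
  have hlogN2 : Real.log N ≤ L₀ * Real.log M := by
    have e1 : (N : ℝ) ≤ (M : ℝ) ^ (K + 1) := by
      calc (N : ℝ) ≤ (D₀ + 1) * P := hNP
        _ ≤ (D₀ + 1) * (C₀ * (M : ℝ) ^ K) := by gcongr; exact hg.2.2.1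
        _ = ((D₀ + 1) * C₀) * (M : ℝ) ^ K := by ring
        _ ≤ M * (M : ℝ) ^ K := by
            gcongr
            have e2 : ((D₀ : ℝ) + 1) * C₀ ≤ ⌈((D₀ : ℝ) + 1) * C₀⌉₊ := Nat.le_ceil _
            have e4 : ⌈((D₀ : ℝ) + 1) * C₀⌉₊ ≤ M := by omega
            have e3 : ((⌈((D₀ : ℝ) + 1) * C₀⌉₊ : ℕ) : ℝ) ≤ M := Nat.cast_le.2 e4
            linarith
        _ = (M : ℝ) ^ (K + 1) := by rw [pow_succ]; ring
    calc Real.log N ≤ Real.log ((M : ℝ) ^ (K + 1)) := Real.log_le_log hNpos e1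
      _ = (K + 1) * Real.log M := by rw [Real.log_pow]; push_cast; ring
      _ ≤ _ := by gcongr; exact le_max_right _ _
  have hlN0 : 0 < Real.log N := by
    by_contra hcon
    push Not at hcon
    have : L₀ * Real.log N ≤ 0 := mul_nonpos_of_nonneg_of_nonpos (by linarith) hcon
    linarith
  have hlNbig : (D₀ + 1) * C * 2 * L₀ ^ (W + 1) + 3 * L₀ ^ (U + W + 1) + 1 ≤ Real.log N := by
    have : L₀ * ((D₀ + 1) * C * 2 * L₀ ^ (W + 1) + 3 * L₀ ^ (U + W + 1) + 1) ≤ L₀ * Real.log N := g4.trans hlogN1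
    exact le_of_mul_le_mul_left this (by linarith)
  have hlN1 : 1 ≤ Real.log N := by
    have e1 : 0 ≤ (D₀ + 1) * C * 2 * L₀ ^ (W + 1) := by positivity
    have e2 : 0 ≤ 3 * L₀ ^ (U + W + 1) := by positivity
    linarith
  have hMN : M ≤ N ^ ⌈L₀⌉₊ := by
    have e1 : Real.log M ≤ Real.log ((N : ℝ) ^ ⌈L₀⌉₊) := by
      rw [Real.log_pow]
      refine hlogN1.trans ?_
      gcongr
      exact Nat.le_ceil _
    have e2 : (M : ℝ) ≤ (N : ℝ) ^ ⌈L₀⌉₊ := (Real.log_le_log_iff hM0 (by positivity)).1 e1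
    exact_mod_cast e2
  refine ⟨⟨hP1, hlogN1, hlogN2, hPN', hNP, hMN⟩, fun c hc => ?_⟩
  set J : ℕ := ⌈Real.log M ^ W⌉₊ + 1 with hJ
  have hlW0 : 0 ≤ Real.log M ^ W := by positivity
  have hlW1 : 1 ≤ Real.log M ^ W := one_le_pow₀ (by linarith)
  have hJ1 : Real.log M ^ W + 1 ≤ J := by
    rw [hJ]
    push_cast
    have := Nat.le_ceil (Real.log M ^ W)
    linarith
  have hlWW : 3 * Real.log M ^ W ≤ Real.log M ^ (W + 1) := by
    rw [pow_succ, mul_comm]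
    gcongr
  have hJ2 : (J : ℝ) ≤ Real.log M ^ (W + 1) := by
    rw [hJ]
    push_cast
    have := (Nat.ceil_lt_add_one hlW0).le
    linarith
  have hJ0 : (0 : ℝ) ≤ J := Nat.cast_nonneg J
  have hCJ : C * (J + 1) ≤ P := by
    calc C * (J + 1) ≤ C * (Real.log M ^ (W + 1) + 1) := by gcongr
      _ ≤ (2 * C + 2) * Real.log M ^ (W + 1) := by nlinarith
      _ ≤ P := hPpow
  have hE := hen M (by omega) J hCJ c
  have hJP : (J : ℝ) ≤ P := by
    refine hJ2.trans (le_trans ?_ hPpow)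
    nlinarith
  -- the members are bounded by `N`
  have hvN : ∀ i, |fam F c M J i| ≤ N := by
    intro i
    have hm1 : (M : ℝ) ≤ ((M + (i.1 : ℕ) : ℕ) : ℝ) := by
      exact_mod_cast (by omega : M ≤ M + (i.1 : ℕ))
    have hm2 : ((M + (i.1 : ℕ) : ℕ) : ℝ) ≤ 3 * M := by
      have := i.1.2
      exact_mod_cast (by omega : M + (i.1 : ℕ) ≤ 3 * M)
    have f1 : P ≤ F ((M + (i.1 : ℕ) : ℕ) : ℝ) := hmono _ _ hMx hm1
    have f2 : F ((M + (i.1 : ℕ) : ℕ) : ℝ) ≤ D * P := (hmono _ _ (lt_of_lt_of_le hMx hm1) hm2).trans hg.2.2.2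
    have f3 := Int.floor_le (F ((M + (i.1 : ℕ) : ℕ) : ℝ))
    have f4 := Int.lt_floor_add_one (F ((M + (i.1 : ℕ) : ℕ) : ℝ))
    have f5 : (((i.2 : ℕ) : ℕ) : ℝ) ≤ 2 * J := by
      have := i.2.2
      exact_mod_cast (by omega : (i.2 : ℕ) ≤ 2 * J)
    have f6 : (0 : ℝ) ≤ ((i.2 : ℕ) : ℝ) := Nat.cast_nonneg _
    have f7 := abs_le.1 hc
    have f8 : D * P ≤ ⌈D⌉₊ * P := by
      have := Nat.le_ceil D
      gcongr
    have f9 : (D₀ : ℝ) * P = B * P + ⌈D⌉₊ * P + 2 * P := by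
      rw [hD₀]
      push_cast
      ring
    have key : |((fam F c M J i : ℤ) : ℝ)| ≤ N := by
      unfold fam
      push_cast at f1 f2 f3 f4 ⊢
      rw [abs_le]
      constructor <;> linarith
    have : ((|fam F c M J i| : ℤ) : ℝ) ≤ ((N : ℤ) : ℝ) := by
      push_cast
      exact key
    exact_mod_cast this
  have hEN : (Nat.card {q : (Fin h → Fin M × Fin (2 * J + 1)) × (Fin h → Fin M × Fin (2 * J + 1)) //
        ∑ j, fam F c M J (q.1 j) = ∑ j, fam F c M J (q.2 j)} : ℝ) * N ≤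
      Real.log N ^ (W + 3) * (Fintype.card (Fin M × Fin (2 * J + 1)) : ℝ) ^ (2 * h) := by
    set E : ℝ := (Nat.card {q : (Fin h → Fin M × Fin (2 * J + 1)) × (Fin h → Fin M × Fin (2 * J + 1)) //
        ∑ j, fam F c M J (q.1 j) = ∑ j, fam F c M J (q.2 j)} : ℝ) with hEdef
    have hE0 : 0 ≤ E := Nat.cast_nonneg _
    set X : ℝ := (Fintype.card (Fin M × Fin (2 * J + 1)) : ℝ) ^ (2 * h) with hX
    have hX0 : 0 ≤ X := by positivity
    calc E * N ≤ E * ((D₀ + 1) * P) := by gcongr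
      _ = (D₀ + 1) * (E * P) := by ring
      _ ≤ (D₀ + 1) * (C * (J + 1) * X) := by gcongr
      _ ≤ (D₀ + 1) * (C * (2 * Real.log M ^ (W + 1)) * X) := by
          gcongr
          linarith
      _ ≤ (D₀ + 1) * (C * (2 * (L₀ * Real.log N) ^ (W + 1)) * X) := by gcongr
      _ = ((D₀ + 1) * C * 2 * L₀ ^ (W + 1)) * Real.log N ^ (W + 1) * X := by rw [mul_pow]; ring
      _ ≤ Real.log N * Real.log N ^ (W + 1) * X := by
          gcongr
          have e2 : 0 ≤ 3 * L₀ ^ (U + W + 1) := by positivity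
          linarith
      _ = Real.log N ^ (W + 2) * X := by ring
      _ ≤ Real.log N ^ (W + 3) * X :=
          mul_le_mul_of_nonneg_right (pow_le_pow_right₀ hlN1 (by omega)) hX0
  have hfin := hN₀ N hNN (Fin M × Fin (2 * J + 1)) (fam F c M J) hvN hEN
    (univ.filter (fun i => Bad N (fam F c M J i))) (fun i hi => (mem_filter.1 hi).2)
  have hcount : ((Ico M (2 * M)).filter (fun m : ℕ => ∃ Q : ℤ, |(Q : ℝ) - c - F m| ≤ Real.log M ^ W ∧
          Bad N Q)).card ≤ (univ.filter (fun i => Bad N (fam F c M J i))).card := by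
    have hsub : (Ico M (2 * M)).filter (fun m : ℕ => ∃ Q : ℤ, |(Q : ℝ) - c - F m| ≤ Real.log M ^ W ∧
          Bad N Q) ⊆ (univ.filter (fun i => Bad N (fam F c M J i))).image (fun i => M + (i.1 : ℕ)) := by
      intro m hm
      rw [mem_filter, mem_Ico] at hm
      obtain ⟨⟨hm1, hm2⟩, Q, hQ, hbad⟩ := hm
      rw [mem_image]
      have f3 := Int.floor_le (F m)
      have f4 := Int.lt_floor_add_one (F m)
      have f5 := abs_le.1 hQ
      have e1 : (-(J : ℤ)) ≤ Q - c - ⌊F m⌋ := by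
        have : (((-(J : ℤ)) : ℤ) : ℝ) ≤ ((Q - c - ⌊F m⌋ : ℤ) : ℝ) := by
          push_cast
          linarith
        exact_mod_cast this
      have e2 : Q - c - ⌊F m⌋ ≤ (J : ℤ) := by
        have : ((Q - c - ⌊F m⌋ : ℤ) : ℝ) ≤ (((J : ℤ)) : ℝ) := by
          push_cast
          linarith
        exact_mod_cast this
      refine ⟨(⟨m - M, by omega⟩, ⟨(Q - c - ⌊F m⌋ + J).toNat, by omega⟩), ?_, ?_⟩
      · rw [mem_filter]
        refine ⟨mem_univ _, ?_⟩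
        have e3 : fam F c M J (⟨m - M, by omega⟩, ⟨(Q - c - ⌊F m⌋ + J).toNat, by omega⟩) = Q := by
          unfold fam
          simp only
          rw [show M + (m - M) = m by omega, Int.toNat_of_nonneg (by omega)]
          ring
        rw [e3]
        exact hbad
      · simp only
        omega
    exact (card_le_card hsub).trans card_image_le
  have hcard : (Fintype.card (Fin M × Fin (2 * J + 1)) : ℝ) = M * (2 * J + 1) := by
    rw [Fintype.card_prod, Fintype.card_fin, Fintype.card_fin]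
    push_cast
    ring
  rw [hcard] at hfin
  calc _ ≤ (((univ.filter (fun i => Bad N (fam F c M J i))).card : ℕ) : ℝ) := by exact_mod_cast hcount
    _ ≤ M * (2 * J + 1) / Real.log N ^ (U + W + 2) := hfin
    _ ≤ _ := by
      rw [div_le_div_iff₀ (by positivity) (by positivity)]
      have e1 : (2 * (J : ℝ) + 1) ≤ 3 * Real.log M ^ (W + 1) := by linarith
      calc (M : ℝ) * (2 * J + 1) * Real.log M ^ U ≤ M * (3 * Real.log M ^ (W + 1)) * Real.log M ^ U := by gcongr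
        _ = M * (3 * Real.log M ^ (U + W + 1)) := by ring
        _ ≤ M * (3 * (L₀ * Real.log N) ^ (U + W + 1)) := by gcongr
        _ = M * ((3 * L₀ ^ (U + W + 1)) * Real.log N ^ (U + W + 1)) := by rw [mul_pow]; ring
        _ ≤ M * (Real.log N * Real.log N ^ (U + W + 1)) := by
            gcongr
            have e1 : 0 ≤ (D₀ + 1) * C * 2 * L₀ ^ (W + 1) := by positivity
            linarith
        _ = M * Real.log N ^ (U + W + 2) := by ring

end Pool.Agent.T2H56.PS
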