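import Pool.Agent.T2H56.PS.Diff

/-!
# Powers are functions of regular growth
-/

set_option autoImplicit false

open Filter

namespace Pool.Agent.T2H56.PS

lemma descPochhammer_ne (c : ℝ) (hc : ∀ n : ℕ, c ≠ n) (q : ℕ) : (descPochhammer ℝ q).eval c ≠ 0 := by
  induction q with
  | zero => simp
  | succ q ih =>
    rw [descPochhammer_succ_right, Polynomial.eval_mul, Polynomial.eval_sub, Polynomial.eval_X,
      Polynomial.eval_natCast]
    exact mul_ne_zero ih (sub_ne_zero.2 (hc q))

/-- `α x ^ c` has regular growth for `α, c > 0`, `c` not an integer -/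
theorem regularGrowth_rpow (α c : ℝ) (hα : 0 < α) (hc0 : 0 < c) (hc : ∀ n : ℕ, c ≠ n) :
    RegularGrowth (fun x => α * x ^ c) := by
  have hit : ∀ (q : ℕ) (x : ℝ), iteratedDeriv q (fun x : ℝ => α * x ^ c) x =
      α * ((descPochhammer ℝ q).eval c * x ^ (c - q)) := by
    intro q x
    rw [iteratedDeriv_const_mul_field, iteratedDeriv_eq_iterate, Real.iter_deriv_rpow_const]
  refine ⟨?_, ?_, ?_⟩
  · exact (tendsto_rpow_atTop hc0).const_mul_atTop hα
  · intro q
    filter_upwards [eventually_gt_atTop 0] with x hx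
    have h1 : iteratedDeriv q (fun x : ℝ => α * x ^ c) = fun x => α * ((descPochhammer ℝ q).eval c * x ^ (c - q)) :=
      funext (hit q)
    rw [h1]
    exact ((Real.differentiableAt_rpow_const_of_ne _ hx.ne').const_mul _).const_mul _
  · intro q _
    refine ⟨|(descPochhammer ℝ q).eval c|, |(descPochhammer ℝ q).eval c|, abs_pos.2 (descPochhammer_ne c hc q), ?_⟩
    filter_upwards [eventually_gt_atTop 0] with x hx
    have h1 : x ^ q * |iteratedDeriv q (fun x : ℝ => α * x ^ c) x| = |(descPochhammer ℝ q).eval c| * (α * x ^ c) := by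
      rw [hit, abs_mul, abs_mul, abs_of_pos hα, abs_of_pos (Real.rpow_pos_of_pos hx _), Real.rpow_sub hx,
        Real.rpow_natCast]
      have : x ^ q ≠ 0 := by positivity
      field_simp
    rw [h1]
    exact ⟨le_rfl, le_rfl⟩

end Pool.Agent.T2H56.PS
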